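import Pool.Agent.Helper41.CI.Fil

/-!
Homogeneous Nullstellensatz; `r` forms in more than `r` variables have a nontrivial common zero;
linear subspaces which are complementary to a cone.
-/

open Finset MvPolynomial

namespace Pool.Agent.Helper41.CI

universe u

variable {k : Type u} [Field k]

theorem homogeneousComponent_mul_of {σ : Type*} {D K : ℕ} (hDK : D ≤ K)
    (a p : MvPolynomial σ k) (hp : p.IsHomogeneous D) :
    homogeneousComponent K (a * p) = homogeneousComponent (K - D) a * p := by
  have h1 : a * p = ∑ i ∈ range (a.totalDegree + 1), homogeneousComponent i a * p := by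
    rw [← Finset.sum_mul, sum_homogeneousComponent]
  rw [h1, map_sum]
  have h2 : ∀ i ∈ range (a.totalDegree + 1),
      homogeneousComponent K (homogeneousComponent i a * p) =
        if i = K - D then homogeneousComponent (K - D) a * p else 0 := by
    intro i _
    have h3 : (homogeneousComponent i a * p).IsHomogeneous (i + D) :=
      (homogeneousComponent_isHomogeneous i a).mul hp
    rw [homogeneousComponent_of_mem (n := i + D) h3]
    by_cases hi : i = K - D
    · rw [if_pos (by omega), if_pos hi, hi]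
    · rw [if_neg (by omega), if_neg hi]
  rw [Finset.sum_congr rfl h2, Finset.sum_ite_eq']
  split_ifs with h3
  · rfl
  · rw [homogeneousComponent_eq_zero (K - D) a, zero_mul]
    simp only [Finset.mem_range] at h3
    omega

theorem exists_pow_mem [IsAlgClosed k] {n : ℕ} {T : Type*} [Fintype T]
    (p : T → MvPolynomial (Fin n) k) (D : T → ℕ) (hp : ∀ t, (p t).IsHomogeneous (D t))
    (h0 : ∀ x : Fin n → k, (∀ t, eval x (p t) = 0) → x = 0) :
    ∃ K : ℕ, 1 ≤ K ∧ (∀ t, D t ≤ K) ∧ ∀ i, ∃ a : T → MvPolynomial (Fin n) k,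
      (∀ t, (a t).IsHomogeneous (K - D t)) ∧ X i ^ K = ∑ t, a t * p t := by
  set I : Ideal (MvPolynomial (Fin n) k) := Ideal.span (Set.range p) with hI
  have h1 : ∀ i : Fin n, ∃ m : ℕ, (X i : MvPolynomial (Fin n) k) ^ m ∈ I := by
    intro i
    have h2 : (X i : MvPolynomial (Fin n) k) ∈ I.radical := by
      rw [← vanishingIdeal_zeroLocus_eq_radical (K := k), mem_vanishingIdeal_iff]
      intro x hx
      have hx0 : x = 0 := by
        apply h0
        intro t
        have := hx (p t) (Ideal.subset_span ⟨t, rfl⟩)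
        simpa using this
      simp [hx0]
    exact h2
  choose m hm using h1
  refine ⟨∑ i, m i + ∑ t, D t + 1, by omega, fun t => ?_, fun i => ?_⟩
  · have := Finset.single_le_sum (f := D) (fun _ _ => Nat.zero_le _) (mem_univ t)
    omega
  · set K := ∑ i, m i + ∑ t, D t + 1 with hK
    have hDK : ∀ t, D t ≤ K := fun t => by
      have := Finset.single_le_sum (f := D) (fun _ _ => Nat.zero_le _) (mem_univ t)
      omega
    have h2 : (X i : MvPolynomial (Fin n) k) ^ K ∈ I := by
      have h3 : m i ≤ K := by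
        have := Finset.single_le_sum (f := m) (fun _ _ => Nat.zero_le _) (mem_univ i)
        omega
      have h4 : K = m i + (K - m i) := by omega
      rw [h4, pow_add]
      exact I.mul_mem_right _ (hm i)
    rw [hI, Ideal.mem_span_range_iff_exists_fun] at h2
    obtain ⟨a, ha⟩ := h2
    refine ⟨fun t => homogeneousComponent (K - D t) (a t),
      fun t => homogeneousComponent_isHomogeneous _ _, ?_⟩
    have h5 := congrArg (homogeneousComponent K) ha
    rw [homogeneousComponent_eq_self (isHomogeneous_X_pow i K), map_sum] at h5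
    rw [← h5]
    exact Finset.sum_congr rfl fun t _ => homogeneousComponent_mul_of (hDK t) _ _ (hp t)

/-- `r` forms of positive degree in more than `r` variables have a nontrivial common zero -/
theorem exists_common_zero [IsAlgClosed k] {n r : ℕ} (hr : r < n)
    (g : Fin r → MvPolynomial (Fin n) k) (D : Fin r → ℕ) (hD : ∀ i, 0 < D i)
    (hg : ∀ i, (g i).IsHomogeneous (D i)) :
    ∃ x : Fin n → k, x ≠ 0 ∧ ∀ i, eval x (g i) = 0 := by
  by_contra hcon
  push Not at hcon
  have h0 : ∀ x : Fin n → k, (∀ t, eval x (g t) = 0) → x = 0 := by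
    intro x hx
    by_contra hx0
    obtain ⟨i, hi⟩ := hcon x hx0
    exact hi (hx i)
  obtain ⟨K, hK, hDK, hpow⟩ := exists_pow_mem g D hg h0
  have hw : ∀ i : Fin n, (X i : MvPolynomial (Fin n) k) ^ K ∈
      Fil k (fun i : Fin n => (X i : MvPolynomial (Fin n) k)) g (K - 1) (2 * K) := by
    intro i
    obtain ⟨a, ha, hX⟩ := hpow i
    rw [hX]
    refine Submodule.sum_mem _ fun t _ => ?_
    have h1 := aeval_mem_Fil (w := fun i : Fin n => (X i : MvPolynomial (Fin n) k)) (z := g)
      (a t) (ha t)
    rw [aeval_X_left_apply] at h1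
    have h2 := Fil_mul h1 (z_mem_Fil (k := k) (w := fun i : Fin n => (X i : MvPolynomial (Fin n) k))
      (z := g) t)
    have := hD t
    have := hDK t
    exact Fil_mono (by omega) (by omega) h2
  obtain ⟨P, hP0, hP⟩ := exists_relation (k := k) (A := MvPolynomial (Fin n) k)
    (w := fun i : Fin n => X i) (z := g) hK hw r (by simp)
    (fun t : Fin (r + 1) => X (Fin.castLE hr t)) (fun t => w_mem_Fil _)
  apply hP0
  have h2 : (aeval fun t : Fin (r + 1) => (X (Fin.castLE hr t) : MvPolynomial (Fin n) k)) =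
      rename (Fin.castLE hr) := by
    apply algHom_ext
    intro t
    simp
  rw [h2] at hP
  exact (rename_injective _ (Fin.castLE_injective hr)) (by rw [hP, map_zero])

/-- a maximal linear subspace meeting a cone only in zero -/
theorem exists_complement {E : Type*} [AddCommGroup E] [Module k E] [FiniteDimensional k E]
    (Y : Set E) (hY : ∀ y ∈ Y, ∀ a : k, a • y ∈ Y) (h0 : (0 : E) ∈ Y) :
    ∃ W : Submodule k E, (∀ y ∈ Y, y ∈ W → y = 0) ∧ ∀ t : E, ∃ y ∈ Y, t - y ∈ W := by
  classical
  let S : Set ℕ := {n | ∃ W : Submodule k E, (∀ y ∈ Y, y ∈ W → y = 0) ∧ Module.finrank k W = n}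
  have hne : S.Nonempty := ⟨0, ⊥, by simp, by simp⟩
  have hbd : BddAbove S := ⟨Module.finrank k E, by
    rintro n ⟨W, -, rfl⟩; exact Submodule.finrank_le W⟩
  obtain ⟨W, hW, hWn⟩ := Nat.sSup_mem hne hbd
  refine ⟨W, hW, fun t => ?_⟩
  by_cases ht : t ∈ W
  · exact ⟨0, h0, by simpa using ht⟩
  -- adjoin `t`
  have hlt : W < W ⊔ Submodule.span k {t} := by
    refine lt_of_le_of_ne le_sup_left fun h => ht ?_
    rw [h]
    exact Submodule.mem_sup_right (Submodule.mem_span_singleton_self t)
  have hnot : ¬ ∀ y ∈ Y, y ∈ W ⊔ Submodule.span k {t} → y = 0 := by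
    intro hall
    have h1 : Module.finrank k (W ⊔ Submodule.span k {t} : Submodule k E) ∈ S := ⟨_, hall, rfl⟩
    have h2 := le_csSup hbd h1
    have h3 := Submodule.finrank_lt_finrank_of_lt hlt
    omega
  push Not at hnot
  obtain ⟨y, hyY, hyW, hy0⟩ := hnot
  obtain ⟨w, hw, v, hv, hwv⟩ := Submodule.mem_sup.1 hyW
  obtain ⟨a, rfl⟩ := Submodule.mem_span_singleton.1 hv
  have ha : a ≠ 0 := by
    rintro rfl
    apply hy0
    apply hW y hyY
    rw [← hwv]; simpa using hw
  refine ⟨a⁻¹ • y, hY y hyY _, ?_⟩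
  have : t - a⁻¹ • y = - (a⁻¹ • w) := by
    rw [← hwv, smul_add, smul_smul, inv_mul_cancel₀ ha, one_smul]; abel
  rw [this]
  exact W.neg_mem (W.smul_mem _ hw)

end Pool.Agent.Helper41.CI
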