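import Mathlib

/-!
Definitions for MP_e809c2_ag: smooth complete intersections in projective space, rational curves
on them, very free rational curves.
-/

open MvPolynomial

namespace Pool.Agent.Helper41.CI

universe u

variable {k : Type u} [Field k] {N c : ℕ}

/-- The subscheme `X : F_1 = ... = F_c = 0` of `P^N` is smooth of codimension `c` (Jacobian
criterion; the field is algebraically closed): at every point `x` of `X` the gradients of the
`F_l` are linearly independent. -/
def SmoothCI (F : Fin c → MvPolynomial (Fin (N + 1)) k) : Prop :=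
  ∀ x : Fin (N + 1) → k, x ≠ 0 → (∀ l, eval x (F l) = 0) →
    LinearIndependent k (fun (l : Fin c) (j : Fin (N + 1)) => eval x (pderiv j (F l)))

/-- A morphism `f : P^1 → X` of degree `e > 0` to the subscheme `X : F_1 = ... = F_c = 0` of `P^N`,
given by `N + 1` binary forms `f_i` of degree `e` without a common zero, with
`F_l(f_0,...,f_N) = 0` for all `l`. -/
structure RationalCurve (F : Fin c → MvPolynomial (Fin (N + 1)) k) where
  /-- degree -/
  e : ℕ
  e_pos : 0 < e
  /-- the binary forms -/
  f : Fin (N + 1) → MvPolynomial (Fin 2) k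
  homogeneous : ∀ i, (f i).IsHomogeneous e
  no_common_zero : ∀ P : Fin 2 → k, P ≠ 0 → ∃ i, eval P (f i) ≠ 0
  mem : ∀ l, aeval f (F l) = 0

/-- The global sections of `f^* T_X (-1)`: by the Euler sequence `0 → O → E → f^* T_X → 0`,
`E = ker (((∂_j F_l)(f))_l : O(e)^(N+1) → ⊕_l O(e deg F_l))`, and because `O(-1)` has no
cohomology, they are the vectors `v` of binary forms of degree `e - 1` with
`∑_j (∂_j F_l)(f) v_j = 0` for all `l`. -/
def RationalCurve.IsTangentField {F : Fin c → MvPolynomial (Fin (N + 1)) k} (γ : RationalCurve F)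
    (v : Fin (N + 1) → MvPolynomial (Fin 2) k) : Prop :=
  (∀ j, (v j).IsHomogeneous (γ.e - 1)) ∧ ∀ l, ∑ j, aeval γ.f (pderiv j (F l)) * v j = 0

/-- `f` is very free: `f^* T_X (-1)` is generated by its global sections, i.e. (every bundle on
`P^1` is a sum of line bundles) `f^* T_X` is a sum of line bundles of positive degree, i.e. ample.
At the point `P` of `P^1` the fibre of `f^* T_X` is the space of all `w` with
`∑_j (∂_j F_l)(f(P)) w_j = 0` for all `l`, modulo `f(P)`. -/
def RationalCurve.VeryFree {F : Fin c → MvPolynomial (Fin (N + 1)) k} (γ : RationalCurve F) :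
    Prop :=
  ∀ P : Fin 2 → k, P ≠ 0 → ∀ w : Fin (N + 1) → k,
    (∀ l, ∑ j, eval (fun i => eval P (γ.f i)) (pderiv j (F l)) * w j = 0) →
      ∃ v : Fin (N + 1) → MvPolynomial (Fin 2) k, γ.IsTangentField v ∧
        ∃ a : k, ∀ j, eval P (v j) = w j + a * eval P (γ.f j)

/-- the curve `f_u = ∑_j x^j u_j` over a ring -/
noncomputable def cur {A : Type*} [CommRing A] {e : ℕ} (u : Fin (e + 1) → Fin (N + 1) → A)
    (i : Fin (N + 1)) : Polynomial A :=
  ∑ j : Fin (e + 1), Polynomial.C (u j i) * Polynomial.X ^ (j : ℕ)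

end Pool.Agent.Helper41.CI
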