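import Pool.Agent.Helper41.CI.Expand
import Pool.Agent.Helper41.CI.Defs

/-!
On a chart of the bad locus the coordinates of one block `u_j` are integral over the others.
-/

open Finset

namespace Pool.Agent.Helper41.CI

universe u v

variable {k : Type u} [Field k] {A : Type v} [CommRing A] [Algebra k A] {N c e : ℕ}

/-- the remaining variables: the blocks `u_j'` with `j' ≠ j` and the `lam l n` with
`(l, n) ≠ (ls, ns)` -/
abbrev Rest (N e : ℕ) (j : Fin (e + 1)) (d : Fin c → ℕ) (p : Σ l : Fin c, Fin (d l * e - 1)) :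
    Type :=
  ({j' : Fin (e + 1) // j' ≠ j} × Fin (N + 1)) ⊕ {q : Σ l : Fin c, Fin (d l * e - 1) // q ≠ p}

/-- the block belonging to `g` in a basis of the polynomials of degree at most `e` which consists
of `g` and of the `x^j'`, `j' ≠ j` -/
noncomputable def blk (g : Polynomial k) (u : Fin (e + 1) → Fin (N + 1) → A) (j : Fin (e + 1))
    (i : Fin (N + 1)) : A := (g.coeff j)⁻¹ • u j i

/-- the remaining variables as elements of `A` -/
noncomputable def rest (g : Polynomial k) (u : Fin (e + 1) → Fin (N + 1) → A) (lam : Fin c → ℕ → A)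
    (j : Fin (e + 1)) (d : Fin c → ℕ) (p : Σ l : Fin c, Fin (d l * e - 1)) :
    Rest N e j d p → A :=
  Sum.elim (fun q => u q.1.1 q.2 - g.coeff q.1.1 • blk g u j q.2) (fun q => lam q.1.1 q.1.2)

theorem card_rest (j : Fin (e + 1)) (d : Fin c → ℕ) (p : Σ l : Fin c, Fin (d l * e - 1)) :
    Fintype.card (Rest N e j d p) = e * (N + 1) + (∑ l, (d l * e - 1) - 1) := by
  classical
  rw [Fintype.card_sum, Fintype.card_prod, Fintype.card_fin,
    Fintype.card_subtype_compl (fun x => x = j), Fintype.card_subtype_compl (fun x => x = p)]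
  simp [Fintype.card_sigma]

theorem map_eq_sum (g : Polynomial k) (hg : g.natDegree ≤ e) :
    g.map (algebraMap k A) = ∑ j' : Fin (e + 1),
      Polynomial.C (algebraMap k A (g.coeff j')) * Polynomial.X ^ (j' : ℕ) := by
  conv_lhs => rw [g.as_sum_range_C_mul_X_pow' (n := e + 1) (by omega)]
  rw [Polynomial.map_sum, Finset.sum_range]
  refine Finset.sum_congr rfl fun j' _ => ?_
  simp

theorem cur_split (g : Polynomial k) (hg : g.natDegree ≤ e)
    (u : Fin (e + 1) → Fin (N + 1) → A) (j : Fin (e + 1)) (hj : g.coeff j ≠ 0)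
    (i : Fin (N + 1)) :
    cur u i = Polynomial.C (blk g u j i) * g.map (algebraMap k A) +
      ∑ j' ∈ univ.erase j, Polynomial.C (u j' i - g.coeff j' • blk g u j i) *
        Polynomial.X ^ (j' : ℕ) := by
  have h1 : ∑ j' ∈ univ.erase j, Polynomial.C (u j' i - g.coeff j' • blk g u j i) *
        Polynomial.X ^ (j' : ℕ) = ∑ j' : Fin (e + 1),
          Polynomial.C (u j' i - g.coeff j' • blk g u j i) * Polynomial.X ^ (j' : ℕ) := by
    rw [← Finset.add_sum_erase univ (fun j' : Fin (e + 1) =>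
      Polynomial.C (u j' i - g.coeff j' • blk g u j i) * Polynomial.X ^ (j' : ℕ)) (mem_univ j)]
    have h2 : u j i - g.coeff j • blk g u j i = 0 := by
      rw [blk, smul_smul, mul_inv_cancel₀ hj, one_smul, sub_self]
    rw [h2, Polynomial.C_0, zero_mul, zero_add]
  rw [h1, map_eq_sum g hg, Finset.mul_sum, ← Finset.sum_add_distrib]
  unfold cur
  refine Finset.sum_congr rfl fun j' _ => ?_
  rw [Algebra.smul_def, Polynomial.C_sub, Polynomial.C_mul]
  ring

theorem aeval_det {c : ℕ} (x : Fin (N + 1) → A)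
    (M : Matrix (Fin c) (Fin c) (MvPolynomial (Fin (N + 1)) k)) :
    MvPolynomial.aeval x M.det = (Matrix.of fun a b => MvPolynomial.aeval x (M a b)).det := by
  rw [AlgHom.map_det]
  rfl

/-- the maximal minors of the Jacobian matrix -/
noncomputable def minor (F : Fin c → MvPolynomial (Fin (N + 1)) k) (S : Fin c → Fin (N + 1)) :
    MvPolynomial (Fin (N + 1)) k :=
  (Matrix.of fun a b => MvPolynomial.pderiv (S b) (F a)).det

theorem minor_homogeneous (F : Fin c → MvPolynomial (Fin (N + 1)) k) (d : Fin c → ℕ)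
    (hF : ∀ l, (F l).IsHomogeneous (d l)) (S : Fin c → Fin (N + 1)) :
    (minor F S).IsHomogeneous (∑ l, (d l - 1)) := by
  unfold minor
  rw [Matrix.det_apply']
  refine MvPolynomial.IsHomogeneous.sum _ _ _ fun σ _ => ?_
  have h1 : (∏ i, (Matrix.of fun a b => MvPolynomial.pderiv (S b) (F a)) (σ i) i).IsHomogeneous
      (∑ i, (d (σ i) - 1)) :=
    MvPolynomial.IsHomogeneous.prod _ _ _ fun i _ => (hF (σ i)).pderiv
  have h2 : ∑ i, (d (σ i) - 1) = ∑ l, (d l - 1) := Equiv.sum_comp σ (fun l => d l - 1)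
  rw [h2] at h1
  have h3 : (((Equiv.Perm.sign σ : ℤ) : MvPolynomial (Fin (N + 1)) k)).IsHomogeneous 0 := by
    have : ((Equiv.Perm.sign σ : ℤ) : MvPolynomial (Fin (N + 1)) k) =
        MvPolynomial.C ((Equiv.Perm.sign σ : ℤ) : k) := by simp
    rw [this]; exact MvPolynomial.isHomogeneous_C _ _
  have := h3.mul h1
  rwa [zero_add] at this

/-- a matrix with linearly independent rows has a nonzero maximal minor -/
theorem exists_minor_ne_zero {c n : ℕ} (M : Fin c → Fin n → k) (hM : LinearIndependent k M) :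
    ∃ S : Fin c → Fin n, (Matrix.of fun a b => M a (S b)).det ≠ 0 := by
  classical
  set B : Matrix (Fin c) (Fin n) k := Matrix.of M with hB
  have h1 : B.rank = c := by
    have := LinearIndependent.rank_matrix (M := B) hM
    simpa using this
  have h2 : Submodule.span k (Set.range B.col) = ⊤ := by
    apply Submodule.eq_top_of_finrank_eq
    rw [← Matrix.rank_eq_finrank_span_cols, h1]
    simp
  obtain ⟨f, hf1, hf2, hf3⟩ := Submodule.exists_fun_fin_finrank_span_eq k (Set.range B.col)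
  have h3 : Module.finrank k (Submodule.span k (Set.range B.col)) = c := by
    rw [← Matrix.rank_eq_finrank_span_cols, h1]
  choose S' hS' using hf1
  refine ⟨fun b => S' (Fin.cast h3.symm b), ?_⟩
  have h4 : LinearIndependent k (Matrix.of fun a b => M a (S' (Fin.cast h3.symm b))).col := by
    have h5 : (Matrix.of fun a b => M a (S' (Fin.cast h3.symm b))).col =
        f ∘ Fin.cast h3.symm := by
      funext b
      rw [Function.comp_apply, ← hS' (Fin.cast h3.symm b)]
      rfl
    rw [h5]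
    exact hf3.comp _ (Fin.cast_injective _)
  rw [Matrix.linearIndependent_cols_iff_isUnit, Matrix.isUnit_iff_isUnit_det] at h4
  exact h4.ne_zero

section Main

variable {F : Fin c → MvPolynomial (Fin (N + 1)) k} {d : Fin c → ℕ}

theorem good_cur (g : Polynomial k) (hg : g.natDegree ≤ e)
    (u : Fin (e + 1) → Fin (N + 1) → A) (lam : Fin c → ℕ → A) (j : Fin (e + 1))
    (hj : g.coeff j ≠ 0) (p : Σ l : Fin c, Fin (d l * e - 1)) {n : ℕ}
    (P : MvPolynomial (Fin (N + 1)) k) (hP : P.IsHomogeneous n) :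
    Good k (blk g u j) (rest g u lam j d p) (g.map (algebraMap k A)) n
      (MvPolynomial.aeval (cur u) P) (MvPolynomial.aeval (blk g u j) P) := by
  classical
  refine good_aeval ⟨g, rfl⟩ (cur u) (fun i => ⟨_, cur_split g hg u j hj i, fun m => ?_⟩) P hP
  rw [Polynomial.finsetSum_coeff]
  refine Submodule.sum_mem _ fun j' hj' => ?_
  rw [Polynomial.coeff_C_mul_X_pow]
  split_ifs
  · have hne : j' ≠ j := (Finset.mem_erase.1 hj').1
    exact z_mem_Fil (k := k) (w := blk g u j) (z := rest g u lam j d p)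
      (Sum.inl (⟨j', hne⟩, i) : Rest N e j d p)
  · exact zero_mem _

theorem lam_mem (g w : Polynomial k) (u : Fin (e + 1) → Fin (N + 1) → A)
    (lam : Fin c → ℕ → A) (j : Fin (e + 1)) {ls : Fin c} {ns : ℕ} (hns : ns < d ls * e - 1)
    (hcoeff : (g ^ (d ls - 1) * w).coeff ns ≠ 0)
    (h1 : ∑ n ∈ range (d ls * e - 1), lam ls n *
      algebraMap k A ((g ^ (d ls - 1) * w).coeff n) = 1) {l : Fin c} {n : ℕ}
    (hn : n < d l * e - 1) :
    lam l n ∈ Fil k (blk g u j) (rest g u lam j d ⟨ls, ⟨ns, hns⟩⟩) 0 1 := by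
  classical
  have key : ∀ (l : Fin c) (n : ℕ) (hn : n < d l * e - 1),
      (⟨l, ⟨n, hn⟩⟩ : Σ l : Fin c, Fin (d l * e - 1)) ≠ ⟨ls, ⟨ns, hns⟩⟩ →
      lam l n ∈ Fil k (blk g u j) (rest g u lam j d ⟨ls, ⟨ns, hns⟩⟩) 0 1 := by
    intro l n hn hq
    exact z_mem_Fil (k := k) (w := blk g u j) (z := rest g u lam j d ⟨ls, ⟨ns, hns⟩⟩)
      (Sum.inr ⟨⟨l, ⟨n, hn⟩⟩, hq⟩ : Rest N e j d ⟨ls, ⟨ns, hns⟩⟩)
  by_cases hq : (⟨l, ⟨n, hn⟩⟩ : Σ l : Fin c, Fin (d l * e - 1)) = ⟨ls, ⟨ns, hns⟩⟩
  · have h2 : l = ls := congrArg Sigma.fst hq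
    subst h2
    have h3 : n = ns := by
      have := congrArg (fun q : Σ l : Fin c, Fin (d l * e - 1) => (q.2 : ℕ)) hq
      simpa using this
    subst h3
    have h4 := Finset.add_sum_erase (range (d l * e - 1)) (fun n => lam l n *
      algebraMap k A ((g ^ (d l - 1) * w).coeff n)) (Finset.mem_range.2 hn)
    rw [h1] at h4
    have h5 : lam l n = ((g ^ (d l - 1) * w).coeff n)⁻¹ •
        (1 - ∑ n' ∈ (range (d l * e - 1)).erase n, lam l n' *
          algebraMap k A ((g ^ (d l - 1) * w).coeff n')) := by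
      rw [← h4, add_sub_cancel_right, Algebra.smul_def, mul_left_comm, ← map_mul,
        inv_mul_cancel₀ hcoeff, map_one, mul_one]
    rw [h5]
    refine Submodule.smul_mem _ _ (Submodule.sub_mem _ (Fil_mono (by omega) (by omega) one_mem_Fil)
      (Submodule.sum_mem _ fun n' hn' => ?_))
    obtain ⟨hne, hr⟩ := Finset.mem_erase.1 hn'
    rw [Finset.mem_range] at hr
    have h7 : lam l n' * algebraMap k A ((g ^ (d l - 1) * w).coeff n') =
        (g ^ (d l - 1) * w).coeff n' • lam l n' := by rw [Algebra.smul_def, mul_comm]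
    rw [h7]
    refine Submodule.smul_mem _ _ (key l n' hr fun h6 => hne ?_)
    have := congrArg (fun q : Σ l : Fin c, Fin (d l * e - 1) => (q.2 : ℕ)) h6
    simpa using this
  · exact key l n hn hq

/-- the relation with index `w` -/
theorem rho_mem (hF : ∀ l, (F l).IsHomogeneous (d l)) (hd2 : ∀ l, 2 ≤ d l)
    (g w : Polynomial k) (hg : g.natDegree ≤ e)
    (u : Fin (e + 1) → Fin (N + 1) → A) (lam : Fin c → ℕ → A) (j : Fin (e + 1))
    (hj : g.coeff j ≠ 0) {ls : Fin c} {ns : ℕ} (hns : ns < d ls * e - 1)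
    (hcoeff : (g ^ (d ls - 1) * w).coeff ns ≠ 0)
    (h1 : ∑ n ∈ range (d ls * e - 1), lam ls n *
      algebraMap k A ((g ^ (d ls - 1) * w).coeff n) = 1)
    (hz : ∀ l, d ls < d l → ∀ n, lam l n = 0) (m : Fin (N + 1))
    (hrel : ∑ l, ∑ n ∈ range (d l * e - 1), lam l n *
      (MvPolynomial.aeval (cur u) (MvPolynomial.pderiv m (F l)) *
        w.map (algebraMap k A)).coeff n = 0) :
    ∑ l, (∑ n ∈ range (d l * e - 1), lam l n *
      algebraMap k A ((g ^ (d l - 1) * w).coeff n)) *
        MvPolynomial.aeval (blk g u j) (MvPolynomial.pderiv m (F l)) ∈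
      Fil k (blk g u j) (rest g u lam j d ⟨ls, ⟨ns, hns⟩⟩) (d ls - 1 - 1) (2 * (d ls - 1)) := by
  have hgood := fun l => good_cur (d := d) g hg u lam j hj ⟨ls, ⟨ns, hns⟩⟩ _
    ((hF l).pderiv (i := m))
  choose hv q hQ hq using hgood
  have h2 : ∑ l, (∑ n ∈ range (d l * e - 1), lam l n *
      algebraMap k A ((g ^ (d l - 1) * w).coeff n)) *
        MvPolynomial.aeval (blk g u j) (MvPolynomial.pderiv m (F l)) =
      - ∑ l, ∑ n ∈ range (d l * e - 1), lam l n * (w.map (algebraMap k A) * q l).coeff n := by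
    refine eq_neg_of_add_eq_zero_left (Eq.trans ?_ hrel)
    rw [← Finset.sum_add_distrib]
    refine Finset.sum_congr rfl fun l _ => ?_
    rw [Finset.sum_mul, ← Finset.sum_add_distrib]
    refine Finset.sum_congr rfl fun n _ => ?_
    have h3 : (MvPolynomial.aeval (cur u) (MvPolynomial.pderiv m (F l)) *
        w.map (algebraMap k A)).coeff n =
        MvPolynomial.aeval (blk g u j) (MvPolynomial.pderiv m (F l)) *
          algebraMap k A ((g ^ (d l - 1) * w).coeff n) +
          (w.map (algebraMap k A) * q l).coeff n := by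
      rw [hQ l, add_mul, Polynomial.coeff_add, mul_assoc, Polynomial.coeff_C_mul,
        ← Polynomial.map_pow, ← Polynomial.map_mul, Polynomial.coeff_map, mul_comm (q l)]
    rw [h3]; ring
  rw [h2]
  refine Submodule.neg_mem _ (Submodule.sum_mem _ fun l _ => Submodule.sum_mem _ fun n hn => ?_)
  rw [Finset.mem_range] at hn
  by_cases hl : d ls < d l
  · rw [hz l hl, zero_mul]; exact zero_mem _
  · have hdl := hd2 l
    have h5 := lam_mem (k := k) g w u lam j hns hcoeff h1 hn
    have h6 : (w.map (algebraMap k A) * q l).coeff n ∈ _ :=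
      Const.mul_coeff (k := k) ⟨w, rfl⟩ (hq l) n
    have h7 := Fil_mul h5 (Fs_le_Fil _ h6)
    exact Fil_mono (by omega) (by omega) h7

/-- the maximal minors of the Jacobian matrix at the block -/
theorem minor_mem (hF : ∀ l, (F l).IsHomogeneous (d l)) (hd2 : ∀ l, 2 ≤ d l)
    (g w : Polynomial k) (hg : g.natDegree ≤ e)
    (u : Fin (e + 1) → Fin (N + 1) → A) (lam : Fin c → ℕ → A) (j : Fin (e + 1))
    (hj : g.coeff j ≠ 0) {ls : Fin c} {ns : ℕ} (hns : ns < d ls * e - 1)
    (hcoeff : (g ^ (d ls - 1) * w).coeff ns ≠ 0)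
    (h1 : ∑ n ∈ range (d ls * e - 1), lam ls n *
      algebraMap k A ((g ^ (d ls - 1) * w).coeff n) = 1)
    (hz : ∀ l, d ls < d l → ∀ n, lam l n = 0)
    (hrel : ∀ m, ∑ l, ∑ n ∈ range (d l * e - 1), lam l n *
      (MvPolynomial.aeval (cur u) (MvPolynomial.pderiv m (F l)) *
        w.map (algebraMap k A)).coeff n = 0) (S : Fin c → Fin (N + 1)) :
    MvPolynomial.aeval (blk g u j) (minor F S) ∈
      Fil k (blk g u j) (rest g u lam j d ⟨ls, ⟨ns, hns⟩⟩) (∑ l, (d l - 1) - 1)
        (2 * ∑ l, (d l - 1)) := by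
  classical
  unfold minor
  rw [aeval_det]
  set M : Matrix (Fin c) (Fin c) A := Matrix.of fun a b =>
    MvPolynomial.aeval (blk g u j)
      ((Matrix.of fun a b => MvPolynomial.pderiv (S b) (F a)) a b) with hM
  set μ : Fin c → A := fun l => ∑ n ∈ range (d l * e - 1), lam l n *
      algebraMap k A ((g ^ (d l - 1) * w).coeff n) with hμ
  have h2 := Matrix.det_updateRow_sum M ls μ
  have hμ1 : μ ls = 1 := h1
  rw [hμ1, one_smul] at h2
  rw [← h2, Matrix.det_apply']
  refine Submodule.sum_mem _ fun σ _ => ?_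
  have h3 : (((Equiv.Perm.sign σ : ℤ) : A)) ∈
      Fil k (blk g u j) (rest g u lam j d ⟨ls, ⟨ns, hns⟩⟩) 0 0 := by
    have : ((Equiv.Perm.sign σ : ℤ) : A) = algebraMap k A ((Equiv.Perm.sign σ : ℤ) : k) := by simp
    rw [this]; exact algebraMap_mem_Fil _
  have h4 : ∏ b, (M.updateRow ls (∑ l, μ l • M l)) (σ b) b ∈
      Fil k (blk g u j) (rest g u lam j d ⟨ls, ⟨ns, hns⟩⟩)
        (∑ b, ((d (σ b) - 1) - if σ b = ls then 1 else 0)) (∑ b, 2 * (d (σ b) - 1)) := by
    refine prod_mem_Fil _ _ _ _ fun b _ => ?_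
    by_cases hb : σ b = ls
    · rw [if_pos hb, hb, Matrix.updateRow_self]
      have h5 := rho_mem hF hd2 g w hg u lam j hj hns hcoeff h1 hz (S b) (hrel (S b))
      have h6 : (∑ l, μ l • M l) b =
          ∑ l, (∑ n ∈ range (d l * e - 1), lam l n *
            algebraMap k A ((g ^ (d l - 1) * w).coeff n)) *
            MvPolynomial.aeval (blk g u j) (MvPolynomial.pderiv (S b) (F l)) := by
        rw [Finset.sum_apply]
        refine Finset.sum_congr rfl fun l _ => ?_
        rw [Pi.smul_apply, smul_eq_mul]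
        rfl
      rw [h6]
      exact h5
    · rw [if_neg hb, Matrix.updateRow_ne hb, Nat.sub_zero]
      exact aeval_mem_Fil _ ((hF (σ b)).pderiv)
  have h5 : ∑ b, 2 * (d (σ b) - 1) = 2 * ∑ l, (d l - 1) := by
    rw [← Finset.mul_sum, Equiv.sum_comp σ (fun l => d l - 1)]
  have h6 : ∑ b, ((d (σ b) - 1) - if σ b = ls then 1 else 0) ≤ ∑ l, (d l - 1) - 1 := by
    rw [Equiv.sum_comp σ (fun l => (d l - 1) - if l = ls then 1 else 0)]
    have h7 : ∑ l, ((d l - 1) - if l = ls then 1 else 0) + 1 ≤ ∑ l, (d l - 1) := by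
      rw [← Finset.add_sum_erase _ _ (mem_univ ls), ← Finset.add_sum_erase univ
        (fun l => d l - 1) (mem_univ ls)]
      have h8 : ∑ l ∈ univ.erase ls, ((d l - 1) - if l = ls then 1 else 0) =
          ∑ l ∈ univ.erase ls, (d l - 1) :=
        Finset.sum_congr rfl fun l hl => by rw [if_neg (Finset.mem_erase.1 hl).1, Nat.sub_zero]
      rw [h8, if_pos rfl]
      have := hd2 ls
      omega
    omega
  have h7 := Fil_mul h3 h4
  exact Fil_mono (by omega) (by omega) h7

/-- **Main result on charts**: the block is integral over the remaining variables. -/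
theorem exists_integral [IsAlgClosed k] (hF : ∀ l, (F l).IsHomogeneous (d l))
    (hd2 : ∀ l, 2 ≤ d l) (hX : SmoothCI F)
    (g w : Polynomial k) (hg : g.natDegree ≤ e)
    (u : Fin (e + 1) → Fin (N + 1) → A) (lam : Fin c → ℕ → A) (j : Fin (e + 1))
    (hj : g.coeff j ≠ 0) (hY : ∀ l, MvPolynomial.aeval (cur u) (F l) = 0)
    {ls : Fin c} {ns : ℕ} (hns : ns < d ls * e - 1)
    (hcoeff : (g ^ (d ls - 1) * w).coeff ns ≠ 0)
    (h1 : ∑ n ∈ range (d ls * e - 1), lam ls n *
      algebraMap k A ((g ^ (d ls - 1) * w).coeff n) = 1)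
    (hz : ∀ l, d ls < d l → ∀ n, lam l n = 0)
    (hrel : ∀ m, ∑ l, ∑ n ∈ range (d l * e - 1), lam l n *
      (MvPolynomial.aeval (cur u) (MvPolynomial.pderiv m (F l)) *
        w.map (algebraMap k A)).coeff n = 0) :
    ∃ K : ℕ, 1 ≤ K ∧ ∀ m, (blk g u j m) ^ K ∈
      Fil k (blk g u j) (rest g u lam j d ⟨ls, ⟨ns, hns⟩⟩) (K - 1) (2 * K) := by
  classical
  -- Nullstellensatz
  let T := Fin c ⊕ (Fin c → Fin (N + 1))
  let p : T → MvPolynomial (Fin (N + 1)) k := Sum.elim F (minor F)
  let D : T → ℕ := Sum.elim d (fun _ => ∑ l, (d l - 1))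
  have hp : ∀ t, (p t).IsHomogeneous (D t) := by
    rintro (l | S)
    · exact hF l
    · exact minor_homogeneous F d hF S
  have h0 : ∀ x : Fin (N + 1) → k, (∀ t, MvPolynomial.eval x (p t) = 0) → x = 0 := by
    intro x hx
    by_contra hx0
    have h2 := hX x hx0 (fun l => hx (Sum.inl l))
    obtain ⟨S, hS⟩ := exists_minor_ne_zero _ h2
    apply hS
    have h3 := hx (Sum.inr S)
    have h4 : MvPolynomial.eval x (minor F S) = MvPolynomial.aeval x (minor F S) := by
      rw [MvPolynomial.aeval_eq_eval]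
    rw [show p (Sum.inr S) = minor F S from rfl, h4, minor, aeval_det] at h3
    rw [← h3]
    congr 1
  obtain ⟨K, hK, hDK, hpow⟩ := exists_pow_mem p D hp h0
  refine ⟨K, hK, fun m => ?_⟩
  obtain ⟨a, ha, hXm⟩ := hpow m
  have h5 : (blk g u j m) ^ K = ∑ t, MvPolynomial.aeval (blk g u j) (a t) *
      MvPolynomial.aeval (blk g u j) (p t) := by
    have := congrArg (MvPolynomial.aeval (blk g u j)) hXm
    simpa using this
  rw [h5]
  refine Submodule.sum_mem _ fun t _ => ?_
  have h6 := aeval_mem_Fil (w := blk g u j) (z := rest g u lam j d ⟨ls, ⟨ns, hns⟩⟩) (a t) (ha t)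
  have h7 := hDK t
  rcases t with l | S
  · have h8 : MvPolynomial.aeval (blk g u j) (F l) ∈
        Fil k (blk g u j) (rest g u lam j d ⟨ls, ⟨ns, hns⟩⟩) (d l - 1) (2 * d l) := by
      obtain ⟨-, q, hQ, hq⟩ := good_cur (d := d) g hg u lam j hj ⟨ls, ⟨ns, hns⟩⟩ _ (hF l)
      have hgne : g ^ d l ≠ 0 := by
        apply pow_ne_zero
        rintro rfl
        simp at hj
      obtain ⟨m0, hm0⟩ : ∃ m0, (g ^ d l).coeff m0 ≠ 0 := by
        by_contra hcon
        push Not at hcon
        exact hgne (Polynomial.ext fun m => by rw [hcon m, Polynomial.coeff_zero])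
      have h9 := congrArg (fun R => R.coeff m0) hQ
      simp only [hY l, Polynomial.coeff_zero, Polynomial.coeff_add, Polynomial.coeff_C_mul,
        ← Polynomial.map_pow, Polynomial.coeff_map] at h9
      have h10 : MvPolynomial.aeval (blk g u j) (F l) =
          - (((g ^ d l).coeff m0)⁻¹ • q.coeff m0) := by
        have h11 : q.coeff m0 = - (MvPolynomial.aeval (blk g u j) (F l) *
            algebraMap k A ((g ^ d l).coeff m0)) := by
          rw [eq_neg_iff_add_eq_zero, add_comm]; exact h9.symm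
        rw [h11, smul_neg, neg_neg, Algebra.smul_def, mul_left_comm, ← map_mul,
          inv_mul_cancel₀ hm0, map_one, mul_one]
      rw [h10]
      exact Submodule.neg_mem _ (Submodule.smul_mem _ _
        (Fil_mono (by omega) (by omega) (Fs_le_Fil _ (hq m0))))
    have h9 := Fil_mul h6 h8
    have hdl := hd2 l
    have h10 : D (Sum.inl l) = d l := rfl
    rw [h10] at h7 h9
    exact Fil_mono (by omega) (by omega) h9
  · have h8 := minor_mem hF hd2 g w hg u lam j hj hns hcoeff h1 hz hrel S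
    have h9 := Fil_mul h6 h8
    have h10 : D (Sum.inr S) = ∑ l, (d l - 1) := rfl
    have h11 : 1 ≤ ∑ l, (d l - 1) := by
      have h12 : d ls - 1 ≤ ∑ l, (d l - 1) :=
        Finset.single_le_sum (f := fun l => d l - 1) (fun _ _ => Nat.zero_le _) (mem_univ ls)
      have := hd2 ls
      omega
    rw [h10] at h7 h9
    exact Fil_mono (by omega) (by omega) h9

end Main

end Pool.Agent.Helper41.CI
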