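import Pool.Agent.Helper41.CI.Defs
import Pool.Agent.Helper61.SRC.Forms

/-!
The curve `f_u` is very free if the map `w ↦ (∑ (∂_j F_l)(f_u) w_j)_l` is onto in degree `e - 2`.
-/

open Finset MvPolynomial

namespace Pool.Agent.Helper41.CI

universe u

variable {k : Type u} [Field k] {N c e : ℕ}

open Pool.Agent.Helper61.SRC (Frame exists_frame)

theorem natDegree_cur (u : Fin (e + 1) → Fin (N + 1) → k) (i : Fin (N + 1)) :
    (cur u i).natDegree ≤ e := by
  unfold cur
  refine Polynomial.natDegree_sum_le_of_forall_le _ _ fun j _ => ?_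
  exact (Polynomial.natDegree_C_mul_X_pow_le _ _).trans (by omega)

/-- evaluation of a form at the curve and homogenization -/
theorem aeval_homogenize (u : Fin (e + 1) → Fin (N + 1) → k) {n : ℕ}
    (P : MvPolynomial (Fin (N + 1)) k) (hP : P.IsHomogeneous n) :
    (aeval (cur u) P).natDegree ≤ n * e ∧
      aeval (fun i => (cur u i).homogenize e) P = (aeval (cur u) P).homogenize (n * e) := by
  have key : ∀ s ∈ P.support, (aeval (cur u) (monomial s (P.coeff s))).natDegree ≤ n * e ∧
      aeval (fun i => (cur u i).homogenize e) (monomial s (P.coeff s)) =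
        (aeval (cur u) (monomial s (P.coeff s))).homogenize (n * e) := by
    intro s hs
    have h1 : ∑ i, s i = n := by
      have := hP (mem_support_iff.1 hs)
      rw [← this]
      simp [Finsupp.weight_apply, Finsupp.sum_fintype]
    have h2 : ∀ i ∈ (univ : Finset (Fin (N + 1))), (cur u i ^ s i).natDegree ≤ s i * e :=
      fun i _ => (Polynomial.natDegree_pow_le).trans (Nat.mul_le_mul_left _ (natDegree_cur u i))
    have h3 : ∑ i, s i * e = n * e := by rw [← Finset.sum_mul, h1]
    have h4 : (∏ i, cur u i ^ s i).natDegree ≤ n * e := by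
      rw [← h3]
      exact (Polynomial.natDegree_prod_le _ _).trans (Finset.sum_le_sum h2)
    have h5 : ∀ i, (cur u i ^ s i).homogenize (s i * e) = (cur u i).homogenize e ^ s i := by
      intro i
      have := Polynomial.homogenize_finsetProd (s := range (s i)) (p := fun _ => cur u i)
        (n := fun _ => e) (fun _ _ => natDegree_cur u i)
      simpa using this
    have h6 := Polynomial.homogenize_finsetProd (s := univ) (p := fun i => cur u i ^ s i)
      (n := fun i => s i * e) h2
    rw [h3] at h6
    rw [aeval_monomial, aeval_monomial, Finsupp.prod_fintype _ _ (fun i => pow_zero _),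
      Finsupp.prod_fintype _ _ (fun i => pow_zero _)]
    constructor
    · refine Polynomial.natDegree_mul_le.trans ?_
      rw [Polynomial.algebraMap_apply, Polynomial.natDegree_C, zero_add]
      exact h4
    · rw [Polynomial.algebraMap_apply, Polynomial.homogenize_C_mul, h6,
        Finset.prod_congr rfl fun i _ => h5 i]
      rfl
  constructor
  · conv_lhs => rw [P.as_sum, map_sum]
    exact Polynomial.natDegree_sum_le_of_forall_le _ _ fun s hs => (key s hs).1
  · conv_lhs => rw [P.as_sum, map_sum]
    conv_rhs => rw [P.as_sum, map_sum, Polynomial.homogenize_finsetSum]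
    exact Finset.sum_congr rfl fun s hs => (key s hs).2

theorem natDegree_aeval_X_one {n : ℕ} (g : MvPolynomial (Fin 2) k) (hg : g.IsHomogeneous n) :
    (aeval ![Polynomial.X, (1 : Polynomial k)] g).natDegree ≤ n := by
  rw [g.as_sum, map_sum]
  refine Polynomial.natDegree_sum_le_of_forall_le _ _ fun s hs => ?_
  rw [aeval_monomial, Finsupp.prod_fintype _ _ (fun i => pow_zero _), Fin.prod_univ_two]
  have h1 : s 0 + s 1 = n := by
    have := hg (mem_support_iff.1 hs)
    rw [← this]
    simp [Finsupp.weight_apply, Finsupp.sum_fintype]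
  simp only [Matrix.cons_val_zero, Matrix.cons_val_one, one_pow, mul_one,
    Polynomial.algebraMap_apply]
  exact (Polynomial.natDegree_C_mul_X_pow_le _ _).trans (by omega)

theorem veryFree_of_onto {F : Fin c → MvPolynomial (Fin (N + 1)) k} {d : Fin c → ℕ}
    (hc : 0 < c) (hF : ∀ l, (F l).IsHomogeneous (d l)) (hd2 : ∀ l, 2 ≤ d l)
    (he2 : 2 ≤ e) (u : Fin (e + 1) → Fin (N + 1) → k)
    (hY : ∀ l, aeval (cur u) (F l) = 0)
    (honto : ∀ g : Fin c → Polynomial k, (∀ l, (g l).natDegree ≤ d l * e - 2) →
      ∃ w : Fin (N + 1) → Polynomial k, (∀ m, (w m).natDegree ≤ e - 2) ∧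
        ∀ l, ∑ m, aeval (cur u) (pderiv m (F l)) * w m = g l) :
    ∃ γ : RationalCurve F, γ.e = e ∧ γ.VeryFree := by
  classical
  set f : Fin (N + 1) → MvPolynomial (Fin 2) k := fun i => (cur u i).homogenize e with hf
  have hfh : ∀ i, (f i).IsHomogeneous e := fun i => Polynomial.isHomogeneous_homogenize _
  have hde : ∀ l, (d l - 1) * e + (e - 2) = d l * e - 2 := by
    intro l
    have h1 : d l * e = (d l - 1) * e + e := by
      conv_lhs => rw [show d l = (d l - 1) + 1 by have := hd2 l; omega]
      ring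
    omega
  have hGh : ∀ l m, (aeval f (pderiv m (F l))).IsHomogeneous ((d l - 1) * e) := by
    intro l m
    rw [(aeval_homogenize u _ ((hF l).pderiv (i := m))).2]
    exact Polynomial.isHomogeneous_homogenize _
  -- binary form version
  have hbin : ∀ g : Fin c → MvPolynomial (Fin 2) k, (∀ l, (g l).IsHomogeneous (d l * e - 2)) →
      ∃ w : Fin (N + 1) → MvPolynomial (Fin 2) k, (∀ m, (w m).IsHomogeneous (e - 2)) ∧
        ∀ l, ∑ m, aeval f (pderiv m (F l)) * w m = g l := by
    intro g hg
    obtain ⟨w, hw, hwg⟩ := honto (fun l => aeval ![Polynomial.X, (1 : Polynomial k)] (g l))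
      (fun l => natDegree_aeval_X_one _ (hg l))
    refine ⟨fun m => (w m).homogenize (e - 2), fun m => Polynomial.isHomogeneous_homogenize _,
      fun l => ?_⟩
    have h1 : ∀ m, aeval f (pderiv m (F l)) * (w m).homogenize (e - 2) =
        (aeval (cur u) (pderiv m (F l)) * w m).homogenize (d l * e - 2) := by
      intro m
      obtain ⟨h2, h3⟩ := aeval_homogenize u _ ((hF l).pderiv (i := m))
      rw [← hde l, Polynomial.homogenize_mul _ _ h2 (hw m), ← h3]
    rw [Finset.sum_congr rfl fun m _ => h1 m, ← Polynomial.homogenize_finsetSum, hwg l]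
    exact Polynomial.homogenize_eq_of_isHomogeneous (hg l) rfl
  -- no common zeros
  have hzero : ∀ P : Fin 2 → k, P ≠ 0 → ∃ i, eval P (f i) ≠ 0 := by
    intro P hP
    by_contra hcon
    push Not at hcon
    obtain ⟨Fr⟩ := exists_frame hP
    obtain ⟨w, hw, hwg⟩ := hbin (fun l => Fr.m0 ^ (d l * e - 2)) (fun l => by
      simpa using Fr.hom_m0.pow (d l * e - 2))
    have h1 := congrArg (eval P) (hwg ⟨0, hc⟩)
    rw [map_pow, Fr.eval_m0, one_pow, map_sum] at h1
    have h2 : ∀ m, eval P (aeval f (pderiv m (F ⟨0, hc⟩)) * w m) = 0 := by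
      intro m
      rw [map_mul]
      have h3 : eval P (aeval f (pderiv m (F ⟨0, hc⟩))) =
          eval (fun i => eval P (f i)) (pderiv m (F ⟨0, hc⟩)) := by
        rw [← MvPolynomial.aeval_eq_eval, ← MvPolynomial.aeval_eq_eval, ← AlgHom.comp_apply,
          MvPolynomial.comp_aeval]
      rw [h3]
      have h4 : (fun i => eval P (f i)) = 0 := funext hcon
      rw [h4]
      have h5 : ((pderiv m) (F ⟨0, hc⟩)).IsHomogeneous (d ⟨0, hc⟩ - 1) := (hF _).pderiv
      have h6 : eval (0 : Fin (N + 1) → k) (pderiv m (F ⟨0, hc⟩)) = 0 := by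
        rw [MvPolynomial.eval_zero, MvPolynomial.constantCoeff_eq]
        have h7 := h5.coeff_eq_zero (d := 0) (by
          have := hd2 ⟨0, hc⟩
          simp; omega)
        exact h7
      rw [h6, zero_mul]
    rw [Finset.sum_congr rfl fun m _ => h2 m, Finset.sum_const_zero] at h1
    exact zero_ne_one h1
  refine ⟨⟨e, by omega, f, hfh, hzero, fun l => ?_⟩, rfl, ?_⟩
  · rw [(aeval_homogenize u _ (hF l)).2, hY l, Polynomial.homogenize_zero]
  -- very free
  intro P hP w hw
  obtain ⟨Fr⟩ := exists_frame hP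
  set M := Fr.m0 ^ (e - 1) with hM
  have hMh : M.IsHomogeneous (e - 1) := by simpa using Fr.hom_m0.pow (e - 1)
  have hR : ∀ l, ∃ R' : MvPolynomial (Fin 2) k, R'.IsHomogeneous (d l * e - 2) ∧
      ∑ m, aeval f (pderiv m (F l)) * (C (w m) * M) = Fr.el * R' := by
    intro l
    have h1 : (∑ m, aeval f (pderiv m (F l)) * (C (w m) * M)).IsHomogeneous
        (d l * e - 2 + 1) := by
      refine IsHomogeneous.sum _ _ _ fun m _ => ?_
      have h2 : d l * e - 2 + 1 = (d l - 1) * e + (0 + (e - 1)) := by
        have := hde l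
        have h3 : 4 ≤ d l * e := Nat.mul_le_mul (hd2 l) he2
        omega
      rw [h2]
      exact (hGh l m).mul ((isHomogeneous_C (Fin 2) (w m)).mul hMh)
    obtain ⟨R', hR', h3⟩ := Fr.dec _ h1
    refine ⟨R', hR', ?_⟩
    have h4 : eval P (∑ m, aeval f (pderiv m (F l)) * (C (w m) * M)) = 0 := by
      rw [map_sum]
      have h5 : ∀ m, eval P (aeval f (pderiv m (F l)) * (C (w m) * M)) =
          eval (fun i => eval P (f i)) (pderiv m (F l)) * w m := by
        intro m
        rw [map_mul, map_mul, eval_C, hM, map_pow, Fr.eval_m0, one_pow, mul_one]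
        congr 1
        rw [← MvPolynomial.aeval_eq_eval, ← MvPolynomial.aeval_eq_eval, ← AlgHom.comp_apply,
          MvPolynomial.comp_aeval]
      rw [Finset.sum_congr rfl fun m _ => h5 m]
      exact hw l
    rw [h4, C_0, zero_mul, zero_add] at h3
    exact h3
  choose R' hR'h hR' using hR
  obtain ⟨t, ht, htg⟩ := hbin R' hR'h
  refine ⟨fun m => C (w m) * M - Fr.el * t m, ⟨fun m => ?_, fun l => ?_⟩, 0, fun m => ?_⟩
  · show (C (w m) * M - Fr.el * t m).IsHomogeneous (e - 1)
    refine IsHomogeneous.sub ?_ ?_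
    · simpa using (isHomogeneous_C (Fin 2) (w m)).mul hMh
    · have h1 : e - 1 = 1 + (e - 2) := by omega
      rw [h1]; exact Fr.hom_el.mul (ht m)
  · have h1 : ∑ m, aeval f (pderiv m (F l)) * (C (w m) * M - Fr.el * t m) =
        ∑ m, aeval f (pderiv m (F l)) * (C (w m) * M) -
          Fr.el * ∑ m, aeval f (pderiv m (F l)) * t m := by
      rw [Finset.mul_sum, ← Finset.sum_sub_distrib]
      exact Finset.sum_congr rfl fun m _ => by ring
    show ∑ m, aeval f (pderiv m (F l)) * (C (w m) * M - Fr.el * t m) = 0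
    rw [h1, htg l, hR' l, sub_self]
  · rw [map_sub, map_mul, map_mul, eval_C, hM, map_pow, Fr.eval_m0, Fr.eval_el]
    ring

end Pool.Agent.Helper41.CI
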