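import Pool.Agent.Helper41.CI.Null

/-!
Expansion of `P(f)` for `f_i = w_i g + (terms in the z's)`.
-/

open Finset Polynomial

namespace Pool.Agent.Helper41.CI

universe u v w

variable {k : Type u} [Field k] {A : Type v} [CommRing A] [Algebra k A]
  {ι κ : Type w} [Fintype ι] [Fintype κ] {w : ι → A} {z : κ → A}

theorem Fs_mul_Fil {n m : ℕ} {x y : A} (hx : x ∈ Fs k w z n) (hy : y ∈ Fil k w z m (2 * m)) :
    x * y ∈ Fs k w z (n + m) := by
  induction hx using Submodule.span_induction with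
  | mem x hx =>
    induction hy using Submodule.span_induction with
    | mem y hy =>
      obtain ⟨β, γ, h1, h2, rfl⟩ := hx
      obtain ⟨β', γ', h1', h2', rfl⟩ := hy
      rw [mon_mul]
      refine Submodule.subset_span ⟨β + β', γ + γ', ?_, ?_, rfl⟩
      · simp only [Pi.add_apply, Finset.sum_add_distrib]; omega
      · simp only [Pi.add_apply, Finset.sum_add_distrib]; omega
    | zero => rw [mul_zero]; exact zero_mem _
    | add y y' _ _ h h' => rw [mul_add]; exact add_mem h h'
    | smul r y _ h => rw [mul_smul_comm]; exact Submodule.smul_mem _ _ h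
  | zero => rw [zero_mul]; exact zero_mem _
  | add x x' _ _ h h' => rw [add_mul]; exact add_mem h h'
  | smul r x _ h => rw [smul_mul_assoc]; exact Submodule.smul_mem _ _ h

theorem Fil_mul_Fs {n m : ℕ} {x y : A} (hx : x ∈ Fil k w z m (2 * m)) (hy : y ∈ Fs k w z n) :
    x * y ∈ Fs k w z (m + n) := by
  rw [mul_comm, add_comm]; exact Fs_mul_Fil hy hx

theorem Fs_le_Fil' (n : ℕ) : Fs k w z n ≤ Fil k w z n (2 * n) :=
  (Fs_le_Fil n).trans (Fil_mono (by omega) (by omega))

/-- the coefficients of the polynomial are constants -/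
def Const (k : Type u) [Field k] {A : Type v} [CommRing A] [Algebra k A] (g : A[X]) : Prop :=
  ∃ g₀ : k[X], g = g₀.map (algebraMap k A)

theorem Const.mul {g g' : A[X]} (h : Const k g) (h' : Const k g') : Const k (g * g') := by
  obtain ⟨a, rfl⟩ := h
  obtain ⟨b, rfl⟩ := h'
  exact ⟨a * b, by rw [Polynomial.map_mul]⟩

theorem Const.pow {g : A[X]} (h : Const k g) (n : ℕ) : Const k (g ^ n) := by
  obtain ⟨a, rfl⟩ := h
  exact ⟨a ^ n, by rw [Polynomial.map_pow]⟩

theorem Const.coeff_mem {g : A[X]} (h : Const k g) (m : ℕ) : g.coeff m ∈ Fil k w z 0 0 := by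
  obtain ⟨a, rfl⟩ := h
  rw [coeff_map]; exact algebraMap_mem_Fil _

theorem Const.mul_coeff {g q : A[X]} (h : Const k g) {W : Submodule k A} (hq : ∀ m, q.coeff m ∈ W)
    (m : ℕ) : (g * q).coeff m ∈ W := by
  obtain ⟨a, rfl⟩ := h
  rw [coeff_mul]
  refine Submodule.sum_mem _ fun p _ => ?_
  rw [coeff_map, ← Algebra.smul_def]
  exact Submodule.smul_mem _ _ (hq _)

variable (k w z) in
/-- `Q = v g^n + q` with the coefficients of `q` in `Fs n` -/
def Good (g : A[X]) (n : ℕ) (Q : A[X]) (v : A) : Prop :=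
  v ∈ Fil k w z n (2 * n) ∧ ∃ q : A[X], Q = C v * g ^ n + q ∧ ∀ m, q.coeff m ∈ Fs k w z n

theorem Good.mul {g : A[X]} (hg : Const k g) {n n' : ℕ} {Q Q' : A[X]} {v v' : A}
    (h : Good k w z g n Q v) (h' : Good k w z g n' Q' v') :
    Good k w z g (n + n') (Q * Q') (v * v') := by
  obtain ⟨hv, q, hQ, hq⟩ := h
  obtain ⟨hv', q', hQ', hq'⟩ := h'
  refine ⟨?_, g ^ n * (C v * q') + g ^ n' * (C v' * q) + q * q', ?_, ?_⟩
  · have := Fil_mul hv hv'
    rwa [← mul_add] at this
  · rw [hQ, hQ', C_mul, pow_add]; ring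
  · intro m
    rw [coeff_add, coeff_add]
    refine add_mem (add_mem ?_ ?_) ?_
    · refine (hg.pow n).mul_coeff (fun m => ?_) m
      rw [coeff_C_mul]
      exact Fil_mul_Fs hv (hq' _)
    · refine (hg.pow n').mul_coeff (fun m => ?_) m
      rw [coeff_C_mul, add_comm n n']
      exact Fil_mul_Fs hv' (hq _)
    · rw [coeff_mul]
      exact Submodule.sum_mem _ fun p _ => Fs_mul_Fil (hq _) (Fs_le_Fil' _ (hq' _))

theorem Good.add {g : A[X]} {n : ℕ} {Q Q' : A[X]} {v v' : A} (h : Good k w z g n Q v)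
    (h' : Good k w z g n Q' v') : Good k w z g n (Q + Q') (v + v') := by
  obtain ⟨hv, q, hQ, hq⟩ := h
  obtain ⟨hv', q', hQ', hq'⟩ := h'
  refine ⟨add_mem hv hv', q + q', ?_, fun m => ?_⟩
  · rw [hQ, hQ', C_add]; ring
  · rw [coeff_add]; exact add_mem (hq m) (hq' m)

theorem good_zero (g : A[X]) (n : ℕ) : Good k w z g n 0 0 :=
  ⟨zero_mem _, 0, by simp, fun m => by rw [coeff_zero]; exact zero_mem _⟩

theorem good_algebraMap (g : A[X]) (c : k) :
    Good k w z g 0 (algebraMap k A[X] c) (algebraMap k A c) :=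
  ⟨algebraMap_mem_Fil c, 0, by simp [Polynomial.algebraMap_apply],
    fun m => by rw [coeff_zero]; exact zero_mem _⟩

theorem good_one (g : A[X]) : Good k w z g 0 (1 : A[X]) (1 : A) := by
  have := good_algebraMap (k := k) (w := w) (z := z) g 1
  simpa using this

theorem Good.pow {g : A[X]} (hg : Const k g) {n : ℕ} {Q : A[X]} {v : A}
    (h : Good k w z g n Q v) (m : ℕ) : Good k w z g (m * n) (Q ^ m) (v ^ m) := by
  induction m with
  | zero => simpa using good_one g
  | succ m ih =>
    rw [pow_succ, pow_succ, Nat.succ_mul]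
    exact ih.mul hg h

theorem Good.prod {g : A[X]} (hg : Const k g) {τ : Type*} (s : Finset τ) {n : τ → ℕ}
    {Q : τ → A[X]} {v : τ → A} (h : ∀ t ∈ s, Good k w z g (n t) (Q t) (v t)) :
    Good k w z g (∑ t ∈ s, n t) (∏ t ∈ s, Q t) (∏ t ∈ s, v t) := by
  classical
  induction s using Finset.induction_on with
  | empty => simpa using good_one g
  | insert t s ht ih =>
    rw [Finset.prod_insert ht, Finset.sum_insert ht, Finset.prod_insert ht]
    exact (h t (Finset.mem_insert_self _ _)).mul hg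
      (ih fun t' ht' => h t' (Finset.mem_insert_of_mem ht'))

theorem Good.sum {g : A[X]} {τ : Type*} (s : Finset τ) {n : ℕ} {Q : τ → A[X]} {v : τ → A}
    (h : ∀ t ∈ s, Good k w z g n (Q t) (v t)) :
    Good k w z g n (∑ t ∈ s, Q t) (∑ t ∈ s, v t) := by
  classical
  induction s using Finset.induction_on with
  | empty => simpa using good_zero g n
  | insert t s ht ih =>
    rw [Finset.sum_insert ht, Finset.sum_insert ht]
    exact (h t (Finset.mem_insert_self _ _)).add
      (ih fun t' ht' => h t' (Finset.mem_insert_of_mem ht'))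

theorem good_of_lin [DecidableEq ι] {g : A[X]} {i : ι} {r : A[X]}
    (hr : ∀ m, r.coeff m ∈ Fil k w z 0 1) : Good k w z g 1 (C (w i) * g + r) (w i) :=
  ⟨w_mem_Fil i, r, by rw [pow_one], fun m => Fil_le_Fs (by omega) (by omega) (hr m)⟩

/-- the expansion of a form of degree `n` in `f_i = w_i g + r_i` -/
theorem good_aeval [DecidableEq ι] {g : A[X]} (hg : Const k g) (f : ι → A[X])
    (hf : ∀ i, ∃ r : A[X], f i = C (w i) * g + r ∧ ∀ m, r.coeff m ∈ Fil k w z 0 1)
    {n : ℕ} (P : MvPolynomial ι k) (hP : P.IsHomogeneous n) :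
    Good k w z g n (MvPolynomial.aeval f P) (MvPolynomial.aeval w P) := by
  rw [P.as_sum, map_sum, map_sum]
  refine Good.sum _ fun s hs => ?_
  rw [MvPolynomial.aeval_monomial, MvPolynomial.aeval_monomial,
    Finsupp.prod_fintype _ _ (fun i => pow_zero _), Finsupp.prod_fintype _ _ (fun i => pow_zero _)]
  have h1 : ∑ i, s i * 1 = n := by
    have := hP (MvPolynomial.mem_support_iff.1 hs)
    rw [← this]
    simp [Finsupp.weight_apply, Finsupp.sum_fintype]
  have h2 := Good.prod (k := k) (w := w) (z := z) hg univ (n := fun i => s i * 1)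
    (Q := fun i => f i ^ s i) (v := fun i => w i ^ s i) (fun i _ => by
      obtain ⟨r, hr, hr'⟩ := hf i
      have := (good_of_lin (k := k) (w := w) (z := z) (g := g) (i := i) hr').pow hg (s i)
      rwa [← hr] at this)
  rw [h1] at h2
  have := (good_algebraMap (k := k) (w := w) (z := z) g (P.coeff s)).mul hg h2
  rwa [zero_add] at this

end Pool.Agent.Helper41.CI
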