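import Mathlib

/-!
Integral elements and growth: if the `K`-th powers of the `w i` are combinations of monomials in
the `w i` and `z t` of smaller degree in `w` and bounded weight, then any `card κ + 1` linear
combinations of the `w i` and `z t` are algebraically dependent.
-/

open Finset

namespace Pool.Agent.Helper41.CI

universe u v w

variable {k : Type u} [Field k] {A : Type v} [CommRing A] [Algebra k A]
  {ι κ : Type w} [Fintype ι] [Fintype κ]

/-- monomials -/
def mon (w : ι → A) (z : κ → A) (β : ι → ℕ) (γ : κ → ℕ) : A := (∏ i, w i ^ β i) * ∏ t, z t ^ γ t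

variable (k) in
/-- span of the monomials with degree at most `a` in `w` and weight (`2` for `w`, `1` for `z`) at
most `b` -/
def Fil (w : ι → A) (z : κ → A) (a b : ℕ) : Submodule k A :=
  Submodule.span k {g | ∃ (β : ι → ℕ) (γ : κ → ℕ), ∑ i, β i ≤ a ∧
    2 * ∑ i, β i + ∑ t, γ t ≤ b ∧ g = mon w z β γ}

variable (k) in
/-- span of the monomials with degree less than `n` in `w` and weight less than `2 n` -/
def Fs (w : ι → A) (z : κ → A) (n : ℕ) : Submodule k A :=
  Submodule.span k {g | ∃ (β : ι → ℕ) (γ : κ → ℕ), ∑ i, β i < n ∧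
    2 * ∑ i, β i + ∑ t, γ t < 2 * n ∧ g = mon w z β γ}

variable {w : ι → A} {z : κ → A}

theorem mon_mul (β β' : ι → ℕ) (γ γ' : κ → ℕ) :
    mon w z β γ * mon w z β' γ' = mon w z (β + β') (γ + γ') := by
  simp only [mon, Pi.add_apply, pow_add, Finset.prod_mul_distrib]
  ring

theorem Fil_mono {a b a' b' : ℕ} (ha : a ≤ a') (hb : b ≤ b') : Fil k w z a b ≤ Fil k w z a' b' :=
  Submodule.span_mono fun _ ⟨β, γ, h1, h2, h3⟩ => ⟨β, γ, h1.trans ha, h2.trans hb, h3⟩

theorem Fil_mul {a b a' b' : ℕ} {x y : A} (hx : x ∈ Fil k w z a b) (hy : y ∈ Fil k w z a' b') :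
    x * y ∈ Fil k w z (a + a') (b + b') := by
  induction hx using Submodule.span_induction with
  | mem x hx =>
    induction hy using Submodule.span_induction with
    | mem y hy =>
      obtain ⟨β, γ, h1, h2, rfl⟩ := hx
      obtain ⟨β', γ', h1', h2', rfl⟩ := hy
      rw [mon_mul]
      refine Submodule.subset_span ⟨β + β', γ + γ', ?_, ?_, rfl⟩
      · simp only [Pi.add_apply, Finset.sum_add_distrib]; omega
      · simp only [Pi.add_apply, Finset.sum_add_distrib]; omega
    | zero => rw [mul_zero]; exact zero_mem _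
    | add y y' _ _ h h' => rw [mul_add]; exact add_mem h h'
    | smul r y _ h => rw [mul_smul_comm]; exact Submodule.smul_mem _ _ h
  | zero => rw [zero_mul]; exact zero_mem _
  | add x x' _ _ h h' => rw [add_mul]; exact add_mem h h'
  | smul r x _ h => rw [smul_mul_assoc]; exact Submodule.smul_mem _ _ h

theorem one_mem_Fil : (1 : A) ∈ Fil k w z 0 0 :=
  Submodule.subset_span ⟨0, 0, by simp, by simp, by simp [mon]⟩

theorem algebraMap_mem_Fil (c : k) : algebraMap k A c ∈ Fil k w z 0 0 := by
  rw [Algebra.algebraMap_eq_smul_one]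
  exact Submodule.smul_mem _ _ one_mem_Fil

theorem w_mem_Fil [DecidableEq ι] (i : ι) : w i ∈ Fil k w z 1 2 := by
  refine Submodule.subset_span ⟨Pi.single i 1, 0, by simp, by simp, ?_⟩
  simp only [mon, Pi.zero_apply, pow_zero, Finset.prod_const_one, mul_one]
  rw [Finset.prod_eq_single i]
  · simp
  · intro j _ hj; simp [hj]
  · intro h; exact absurd (mem_univ _) h

theorem z_mem_Fil [DecidableEq κ] (t : κ) : z t ∈ Fil k w z 0 1 := by
  refine Submodule.subset_span ⟨0, Pi.single t 1, by simp, by simp, ?_⟩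
  simp only [mon, Pi.zero_apply, pow_zero, Finset.prod_const_one, one_mul]
  rw [Finset.prod_eq_single t]
  · simp
  · intro j _ hj; simp [hj]
  · intro h; exact absurd (mem_univ _) h

theorem prod_mem_Fil {τ : Type*} (s : Finset τ) (x : τ → A) (a b : τ → ℕ)
    (h : ∀ t ∈ s, x t ∈ Fil k w z (a t) (b t)) :
    ∏ t ∈ s, x t ∈ Fil k w z (∑ t ∈ s, a t) (∑ t ∈ s, b t) := by
  classical
  induction s using Finset.induction_on with
  | empty => simpa using one_mem_Fil
  | insert t s ht ih =>
    rw [Finset.prod_insert ht, Finset.sum_insert ht, Finset.sum_insert ht]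
    exact Fil_mul (h t (Finset.mem_insert_self _ _))
      (ih fun t' ht' => h t' (Finset.mem_insert_of_mem ht'))

theorem pow_mem_Fil {x : A} {a b : ℕ} (h : x ∈ Fil k w z a b) (n : ℕ) :
    x ^ n ∈ Fil k w z (n * a) (n * b) := by
  induction n with
  | zero => simpa using one_mem_Fil
  | succ n ih =>
    rw [pow_succ, Nat.succ_mul, Nat.succ_mul]
    exact Fil_mul ih h

theorem Fs_le_Fil (n : ℕ) : Fs k w z n ≤ Fil k w z (n - 1) (2 * n - 1) :=
  Submodule.span_mono fun _ ⟨β, γ, h1, h2, h3⟩ => ⟨β, γ, by omega, by omega, h3⟩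

theorem Fil_le_Fs {a b n : ℕ} (ha : a < n) (hb : b < 2 * n) : Fil k w z a b ≤ Fs k w z n :=
  Submodule.span_mono fun _ ⟨β, γ, h1, h2, h3⟩ => ⟨β, γ, by omega, by omega, h3⟩

/-- polynomial of degree `n` in the `w i` -/
theorem aeval_mem_Fil [DecidableEq ι] {n : ℕ} (P : MvPolynomial ι k) (hP : P.IsHomogeneous n) :
    MvPolynomial.aeval w P ∈ Fil k w z n (2 * n) := by
  rw [P.as_sum, map_sum]
  refine Submodule.sum_mem _ fun s hs => ?_
  rw [MvPolynomial.aeval_monomial, Finsupp.prod_fintype _ _ (fun i => pow_zero _)]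
  have h1 : ∑ i, s i = n := by
    have := hP (MvPolynomial.mem_support_iff.1 hs)
    rw [← this]
    simp [Finsupp.weight_apply, Finsupp.sum_fintype]
  have h2 : ∏ i, w i ^ s i ∈ Fil k w z n (2 * n) := by
    refine Submodule.subset_span ⟨s, 0, by rw [h1], by rw [h1]; simp, by simp [mon]⟩
  have := Fil_mul (algebraMap_mem_Fil (w := w) (z := z) (P.coeff s)) h2
  simpa using this

/-- reduction to monomials with exponents of the `w i` less than `K` -/
theorem Fil_le_normal {K : ℕ} (hK : 1 ≤ K)
    (h : ∀ i, w i ^ K ∈ Fil k w z (K - 1) (2 * K)) (a b : ℕ) :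
    Fil k w z a b ≤ Submodule.span k {g | ∃ (β : ι → ℕ) (γ : κ → ℕ), (∀ i, β i < K) ∧
      (∀ t, γ t ≤ b) ∧ g = mon w z β γ} := by
  classical
  induction a generalizing b with
  | zero =>
    refine Submodule.span_mono ?_
    rintro _ ⟨β, γ, h1, h2, h3⟩
    refine ⟨β, γ, fun i => ?_, fun t => ?_, h3⟩
    · have := Finset.single_le_sum (f := β) (fun _ _ => Nat.zero_le _) (mem_univ i)
      omega
    · have := Finset.single_le_sum (f := γ) (fun _ _ => Nat.zero_le _) (mem_univ t)
      omega
  | succ a ih =>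
    refine Submodule.span_le.2 ?_
    rintro _ ⟨β, γ, h1, h2, rfl⟩
    by_cases hβ : ∀ i, β i < K
    · refine Submodule.subset_span ⟨β, γ, hβ, fun t => ?_, rfl⟩
      have := Finset.single_le_sum (f := γ) (fun _ _ => Nat.zero_le _) (mem_univ t)
      omega
    · push Not at hβ
      obtain ⟨i, hi⟩ := hβ
      set β' : ι → ℕ := β - Pi.single i K with hβ'
      have e1 : β = Pi.single i K + β' := by
        funext j
        by_cases hj : j = i
        · subst hj; simp [hβ']; omega
        · simp [hβ', hj]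
      have e2 : ∑ j, β j = K + ∑ j, β' j := by
        conv_lhs => rw [e1]
        simp [Finset.sum_add_distrib]
      have e3 : mon w z β γ = w i ^ K * mon w z β' γ := by
        have : mon w z β γ = mon w z (Pi.single i K) 0 * mon w z β' γ := by
          rw [mon_mul, ← e1, zero_add]
        rw [this]
        congr 1
        simp only [mon, Pi.zero_apply, pow_zero, Finset.prod_const_one, mul_one]
        rw [Finset.prod_eq_single i]
        · simp
        · intro j _ hj; simp [hj]
        · intro h; exact absurd (mem_univ _) h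
      have h4 : mon w z β' γ ∈ Fil k w z (∑ j, β' j) (2 * ∑ j, β' j + ∑ t, γ t) :=
        Submodule.subset_span ⟨β', γ, le_refl _, le_refl _, rfl⟩
      have h5 := Fil_mul (h i) h4
      rw [← e3] at h5
      exact ih b (Fil_mono (by omega) (by omega) h5)

theorem pow_gap (C M : ℕ) : ∃ m : ℕ, C * (2 * (M + 1) * m + 1) ^ M < m ^ (M + 1) := by
  refine ⟨C * (2 * (M + 1) + 1) ^ M + 1, ?_⟩
  set m := C * (2 * (M + 1) + 1) ^ M + 1 with hm
  have h1 : 2 * (M + 1) * m + 1 ≤ (2 * (M + 1) + 1) * m := by
    have : 1 ≤ m := by omega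
    nlinarith
  calc C * (2 * (M + 1) * m + 1) ^ M ≤ C * ((2 * (M + 1) + 1) * m) ^ M := by gcongr
    _ = (C * (2 * (M + 1) + 1) ^ M) * m ^ M := by rw [mul_pow]; ring
    _ < m * m ^ M := by
        apply Nat.mul_lt_mul_of_pos_right
        · omega
        · positivity
    _ = m ^ (M + 1) := by rw [pow_succ]; ring

/-- any `card κ + 1` elements of weight at most `2` are algebraically dependent -/
theorem exists_relation {K : ℕ} (hK : 1 ≤ K)
    (h : ∀ i, w i ^ K ∈ Fil k w z (K - 1) (2 * K)) (M : ℕ) (hM : Fintype.card κ ≤ M)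
    (L : Fin (M + 1) → A) (hL : ∀ t, L t ∈ Fil k w z 1 2) :
    ∃ P : MvPolynomial (Fin (M + 1)) k, P ≠ 0 ∧ MvPolynomial.aeval L P = 0 := by
  classical
  obtain ⟨m, hm⟩ := pow_gap (K ^ Fintype.card ι) M
  set b : ℕ := 2 * (M + 1) * m with hb
  -- the target space
  set T : Finset A := (Finset.univ : Finset ((ι → Fin K) × (κ → Fin (b + 1)))).image
    (fun q => mon w z (fun i => (q.1 i : ℕ)) (fun t => (q.2 t : ℕ))) with hT
  have hTcard : T.card ≤ K ^ Fintype.card ι * (b + 1) ^ M := by
    refine Finset.card_image_le.trans ?_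
    simp only [Finset.card_univ, Fintype.card_prod, Fintype.card_fun, Fintype.card_fin]
    exact Nat.mul_le_mul_left _ (Nat.pow_le_pow_right (by omega) hM)
  set W : Submodule k A := Submodule.span k (T : Set A) with hW
  have hWfin : FiniteDimensional k W := FiniteDimensional.span_finset k T
  have hWdim : Module.finrank k W ≤ K ^ Fintype.card ι * (b + 1) ^ M :=
    (finrank_span_finset_le_card T).trans hTcard
  have hmem : ∀ a, Fil k w z a b ≤ W := by
    intro a
    refine (Fil_le_normal hK h a b).trans (Submodule.span_mono ?_)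
    rintro _ ⟨β, γ, h1, h2, rfl⟩
    rw [hT, Finset.coe_image]
    exact ⟨(fun i => ⟨β i, h1 i⟩, fun t => ⟨γ t, Nat.lt_succ_of_le (h2 t)⟩), by simp, rfl⟩
  -- the monomials
  let ex : (Fin (M + 1) → Fin m) → (Fin (M + 1) → ℕ) := fun g t => (g t : ℕ)
  let v : (Fin (M + 1) → Fin m) → A := fun g => ∏ t, L t ^ (ex g t)
  have hv : ∀ g, v g ∈ W := by
    intro g
    have h1 := prod_mem_Fil (k := k) (w := w) (z := z) univ (fun t => L t ^ (ex g t))
      (fun t => ex g t * 1) (fun t => ex g t * 2) (fun t _ => pow_mem_Fil (hL t) _)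
    refine hmem _ (Fil_mono (le_refl _) ?_ h1)
    have h2 : ∀ t, ex g t * 2 ≤ 2 * m := fun t => by
      have := (g t).2
      show ((g t : Fin m) : ℕ) * 2 ≤ 2 * m
      omega
    calc ∑ t, ex g t * 2 ≤ ∑ _t : Fin (M + 1), 2 * m := Finset.sum_le_sum fun t _ => h2 t
      _ = b := by simp [hb]; ring
  have hdep : ¬ LinearIndependent k (fun g => (⟨v g, hv g⟩ : W)) := by
    intro hli
    have h1 := hli.fintype_card_le_finrank
    simp only [Fintype.card_fun, Fintype.card_fin] at h1
    omega
  rw [Fintype.not_linearIndependent_iff] at hdep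
  obtain ⟨g, hg0, i, hi⟩ := hdep
  have hsum : ∑ q, g q • v q = 0 := by
    have := congrArg (Submodule.subtype W) hg0
    simpa using this
  refine ⟨∑ q, MvPolynomial.monomial (Finsupp.equivFunOnFinite.symm (ex q)) (g q), ?_, ?_⟩
  · intro h0
    apply hi
    have h1 := congrArg (MvPolynomial.coeff (Finsupp.equivFunOnFinite.symm (ex i))) h0
    rw [MvPolynomial.coeff_sum] at h1
    simp only [MvPolynomial.coeff_monomial, MvPolynomial.coeff_zero] at h1
    rw [Finset.sum_eq_single i] at h1
    · simpa using h1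
    · intro q _ hq
      rw [if_neg]
      intro h2
      apply hq
      funext t
      have := DFunLike.congr_fun h2 t
      simp only [Finsupp.equivFunOnFinite_symm_apply_apply] at this
      exact Fin.ext this
    · intro h; exact absurd (mem_univ _) h
  · rw [map_sum, ← hsum]
    refine Finset.sum_congr rfl fun q _ => ?_
    rw [MvPolynomial.aeval_monomial, Finsupp.prod_fintype _ _ (fun i => pow_zero _),
      Algebra.smul_def]
    rfl

end Pool.Agent.Helper41.CI
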