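import Mathlib

/-!
The products `g ^ δ * w`, `deg g ≤ e`, `deg w ≤ e - 2`, span the polynomials of degree at most
`(δ + 1) e - 2` if `e ((δ mod q) + 1) > q` for all powers `q ≤ δ` of the characteristic.
-/

open Finset Polynomial

namespace Pool.Agent.Helper41.CI

universe u

variable {k : Type u} [Field k]

/-- coefficient extraction -/
theorem extract [Infinite k] (lam : k[X] →ₗ[k] k) (H : (k[X])[X])
    (h : ∀ τ : k, lam (H.eval (C τ)) = 0) (n : ℕ) : lam (H.coeff n) = 0 := by
  let Q : k[X] := ∑ i ∈ range (H.natDegree + 1), C (lam (H.coeff i)) * X ^ i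
  have hQ : Q = 0 := by
    apply Polynomial.funext
    intro τ
    have h1 := h τ
    rw [Polynomial.eval_eq_sum_range, map_sum] at h1
    rw [eval_zero, ← h1, eval_finsetSum]
    refine Finset.sum_congr rfl fun i _ => ?_
    rw [eval_mul, eval_C, eval_pow, eval_X, ← C_pow, mul_comm (H.coeff i), ← smul_eq_C_mul,
      map_smul, smul_eq_mul, mul_comm]
  by_cases hn : n ≤ H.natDegree
  · have h2 := congrArg (fun R => R.coeff n) hQ
    simp only [Q, finsetSum_coeff, coeff_C_mul_X_pow, coeff_zero] at h2
    rw [Finset.sum_eq_single n] at h2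
    · simpa using h2
    · intro b _ hb; rw [if_neg (Ne.symm hb)]
    · intro h3; exact absurd (Finset.mem_range.2 (by omega)) h3
  · rw [coeff_eq_zero_of_natDegree_lt (by omega), map_zero]

/-- the inductive step -/
theorem span_step [Infinite k] {e q a δ' : ℕ} (hq : 1 ≤ q) (ha : 1 ≤ a) (hδ' : δ' < q)
    (hadd : ∀ (R : Type u) [CommRing R] [Algebra k R] (y z : R), (y + z) ^ q = y ^ q + z ^ q)
    (hch : ∀ r ≤ a, ((a.choose r : ℕ) : k) ≠ 0) (lam : k[X] →ₗ[k] k)
    (h : ∀ g w : k[X], g.natDegree ≤ e → w.natDegree ≤ e - 2 →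
      lam (g ^ (a * q + δ') * w) = 0)
    {s : ℕ} (hs : s ≤ a * e) (g w : k[X]) (hg : g.natDegree ≤ e) (hw : w.natDegree ≤ e - 2) :
    lam (X ^ (q * s) * (g ^ δ' * w)) = 0 := by
  -- the decomposition of `s`
  rcases Nat.eq_zero_or_pos e with rfl | he
  · have hs0 : s = 0 := by simpa using hs
    subst hs0
    -- use constants
    have hg' : g = C (g.coeff 0) := eq_C_of_natDegree_le_zero hg
    have h1 := h 1 w (by simp) hw
    rw [one_pow, one_mul] at h1
    rw [mul_zero, pow_zero, one_mul, hg', ← C_pow, ← smul_eq_C_mul, map_smul, h1, smul_zero]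
  obtain ⟨j, r, hj, hr, hjr⟩ : ∃ j r, j < e ∧ r ≤ a ∧ s = j * a + r := by
    by_cases hlt : s < a * e
    · refine ⟨s / a, s % a, ?_, (Nat.mod_lt _ ha).le, ?_⟩
      · exact Nat.div_lt_of_lt_mul hlt
      · rw [mul_comm]; exact (Nat.div_add_mod s a).symm
    · refine ⟨e - 1, a, by omega, le_refl _, ?_⟩
      have : s = a * e := by omega
      rw [this]
      conv_lhs => rw [show e = (e - 1) + 1 by omega]
      ring
  -- first extraction
  have h1 : ∀ β : k, lam ((X ^ j + C β * X ^ (j + 1)) ^ (q * a) * (g ^ δ' * w)) = 0 := by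
    intro β
    set R : k[X] := X ^ j + C β * X ^ (j + 1) with hR
    have hRd : R.natDegree ≤ e := by
      refine (natDegree_add_le _ _).trans (max_le ?_ ?_)
      · exact (natDegree_X_pow_le j).trans hj.le
      · exact (natDegree_C_mul_X_pow_le _ _).trans hj
    let H : (k[X])[X] := (C g + C R * X) ^ (a * q + δ') * C w
    have hH : ∀ τ : k, lam (H.eval (C τ)) = 0 := by
      intro τ
      have h2 : H.eval (C τ) = (g + R * C τ) ^ (a * q + δ') * w := by
        simp [H]
      rw [h2]
      apply h _ _ _ hw
      refine (natDegree_add_le _ _).trans (max_le hg ?_)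
      refine natDegree_mul_le.trans ?_
      rw [natDegree_C, add_zero]
      exact hRd
    have h3 := extract lam H hH (q * a)
    have h4 : H.coeff (q * a) = R ^ (q * a) * (g ^ δ' * w) := by
      have h5 : H = (C (g ^ q) + C (R ^ q) * X ^ q) ^ a * ((C g + C R * X) ^ δ' * C w) := by
        simp only [H]
        rw [pow_add, mul_comm a q, pow_mul, hadd (k[X])[X], mul_pow, ← C_pow, ← C_pow]
        ring
      rw [h5, add_pow, Finset.sum_mul, finsetSum_coeff]
      have h6 : ∀ b ∈ range (a + 1), ((C (g ^ q) ^ b * (C (R ^ q) * X ^ q) ^ (a - b) *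
          ((a.choose b : ℕ) : (k[X])[X])) * ((C g + C R * X) ^ δ' * C w)).coeff (q * a) =
          if b = 0 then R ^ (q * a) * (g ^ δ' * w) else 0 := by
        intro b hb
        have hb' : b ≤ a := by rw [Finset.mem_range] at hb; omega
        have h7 : (C (g ^ q) ^ b * (C (R ^ q) * X ^ q) ^ (a - b) *
            ((a.choose b : ℕ) : (k[X])[X])) * ((C g + C R * X) ^ δ' * C w) =
            C ((g ^ q) ^ b * (R ^ q) ^ (a - b) * ((a.choose b : ℕ) : k[X]) * w) *
              ((C g + C R * X) ^ δ' * X ^ (q * (a - b))) := by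
          rw [mul_pow, ← pow_mul]
          simp only [C_mul, C_pow, map_natCast]
          ring
        rw [h7, coeff_C_mul, coeff_mul_X_pow']
        have h8 : q * (a - b) ≤ q * a := Nat.mul_le_mul_left _ (by omega)
        rw [if_pos h8]
        have h9 : q * a - q * (a - b) = q * b := by
          rw [← Nat.mul_sub]; congr 1; omega
        rw [h9]
        by_cases hb0 : b = 0
        · subst hb0
          rw [if_pos rfl, mul_zero, coeff_zero_eq_eval_zero]
          simp only [eval_pow, eval_add, eval_C, eval_mul, eval_X, mul_zero, add_zero, pow_zero,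
            one_mul, Nat.choose_zero_right, Nat.cast_one, mul_one, Nat.sub_zero]
          rw [← pow_mul]
          ring
        · rw [if_neg hb0]
          have h10 : ((C g + C R * X) ^ δ').natDegree < q * b := by
            refine lt_of_le_of_lt natDegree_pow_le ?_
            have h11 : (C g + C R * X : (k[X])[X]).natDegree ≤ 1 := by
              refine (natDegree_add_le _ _).trans (max_le (by rw [natDegree_C]; omega) ?_)
              exact natDegree_mul_le.trans (by rw [natDegree_C]; simp)
            calc δ' * (C g + C R * X : (k[X])[X]).natDegree ≤ δ' * 1 := Nat.mul_le_mul_left _ h11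
              _ < q * 1 := by omega
              _ ≤ q * b := Nat.mul_le_mul_left _ (by omega)
          rw [coeff_eq_zero_of_natDegree_lt h10, mul_zero]
      rw [Finset.sum_congr rfl h6, Finset.sum_ite_eq']
      simp
    rw [h4] at h3
    exact h3
  -- second extraction
  let H2 : (k[X])[X] := (C (X ^ (q * j)) + C (X ^ (q * (j + 1))) * X ^ q) ^ a * C (g ^ δ' * w)
  have hH2 : ∀ β : k, lam (H2.eval (C β)) = 0 := by
    intro β
    have h2 := h1 β
    have h3 : H2.eval (C β) = (X ^ j + C β * X ^ (j + 1)) ^ (q * a) * (g ^ δ' * w) := by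
      simp only [H2, eval_mul, eval_pow, eval_add, eval_C, eval_X]
      rw [pow_mul (X ^ j + C β * X ^ (j + 1)) q a, hadd k[X], mul_pow, ← pow_mul, ← pow_mul,
        mul_comm j q, mul_comm (j + 1) q, mul_comm (C β ^ q)]
    rw [h3]; exact h2
  have h5 := extract lam H2 hH2 (q * r)
  have h6 : H2.coeff (q * r) = C ((a.choose r : ℕ) : k) * (X ^ (q * s) * (g ^ δ' * w)) := by
    simp only [H2]
    rw [coeff_mul_C, add_comm, add_pow, finsetSum_coeff]
    have h7 : ∀ b ∈ range (a + 1), ((C (X ^ (q * (j + 1))) * X ^ q) ^ b *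
        C (X ^ (q * j)) ^ (a - b) * ((a.choose b : ℕ) : (k[X])[X])).coeff (q * r) =
        if b = r then C ((a.choose r : ℕ) : k) * X ^ (q * s) else 0 := by
      intro b hb
      have hb' : b ≤ a := by rw [Finset.mem_range] at hb; omega
      have h8 : ((C (X ^ (q * (j + 1)) : k[X]) * X ^ q) ^ b *
        C (X ^ (q * j) : k[X]) ^ (a - b) * ((a.choose b : ℕ) : (k[X])[X])) =
          C ((X ^ (q * (j + 1)) : k[X]) ^ b * (X ^ (q * j)) ^ (a - b) * ((a.choose b : ℕ) : k[X])) *
            X ^ (q * b) := by
        rw [mul_pow, ← pow_mul]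
        simp only [C_mul, C_pow, map_natCast]
        ring
      rw [h8, coeff_C_mul_X_pow]
      by_cases hbr : b = r
      · subst hbr
        rw [if_pos rfl, if_pos rfl, ← pow_mul, ← pow_mul, ← pow_add, hjr]
        have h9 : q * (j + 1) * b + q * j * (a - b) = q * (j * a + b) := by
          have : a = (a - b) + b := by omega
          conv_rhs => rw [this]
          ring
        rw [h9, mul_comm, C_eq_natCast]
      · rw [if_neg hbr, if_neg]
        intro h9
        exact hbr (Nat.eq_of_mul_eq_mul_left hq h9).symm
    rw [Finset.sum_congr rfl h7, Finset.sum_ite_eq', if_pos (Finset.mem_range.2 (by omega))]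
    ring
  rw [h6, ← smul_eq_C_mul, map_smul, smul_eq_mul] at h5
  exact (mul_eq_zero.1 h5).resolve_left (hch r hr)

/-- **Spanning theorem**, dual form. -/
theorem span_main [Infinite k] (p : ℕ) [CharP k p] {e : ℕ} (he : 2 ≤ e) (δ : ℕ)
    (hcond : ∀ i, 1 ≤ i → p ^ i ≤ δ → p ^ i < e * (δ % p ^ i + 1)) (lam : k[X] →ₗ[k] k)
    (h : ∀ g w : k[X], g.natDegree ≤ e → w.natDegree ≤ e - 2 → lam (g ^ δ * w) = 0) (m : ℕ)
    (hm : m + 2 ≤ (δ + 1) * e) : lam (X ^ m) = 0 := by
  induction δ using Nat.strong_induction_on generalizing lam m with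
  | _ δ ih =>
    rcases Nat.eq_zero_or_pos δ with rfl | hδ
    · have := h 1 (X ^ m) (by simp) ((natDegree_X_pow_le m).trans (by omega))
      simpa using this
    -- the top power
    obtain ⟨q, a, δ', hq, ha, hδ', hsum, hadd, hch, hlow⟩ : ∃ q a δ' : ℕ, 1 ≤ q ∧ 1 ≤ a ∧
        δ' < q ∧ δ = a * q + δ' ∧
        (∀ (R : Type u) [CommRing R] [Algebra k R] (y z : R), (y + z) ^ q = y ^ q + z ^ q) ∧
        (∀ r ≤ a, ((a.choose r : ℕ) : k) ≠ 0) ∧ (q = 1 ∨ ∃ i, 1 ≤ i ∧ q = p ^ i) := by
      rcases Nat.lt_or_ge δ p with hlt | hge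
      · -- `δ < p`
        refine ⟨1, δ, 0, le_refl _, hδ, by omega, by omega, fun R _ _ y z => by simp, ?_,
          Or.inl rfl⟩
        intro r hr h0
        have hp : p.Prime := by
          rcases CharP.char_is_prime_or_zero k p with hp | hp
          · exact hp
          · omega
        rw [CharP.cast_eq_zero_iff k p] at h0
        have h1 := Nat.choose_mul_factorial_mul_factorial hr
        have h2 : p ∣ δ.factorial := by
          rw [← h1, mul_assoc]; exact Dvd.dvd.mul_right h0 _
        have := (hp.dvd_factorial).1 h2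
        omega
      · rcases CharP.char_is_prime_or_zero k p with hp | hp
        · -- the digit decomposition
          have : Fact p.Prime := ⟨hp⟩
          set i := Nat.log p δ with hi
          have h1 : p ^ i ≤ δ := Nat.pow_log_le_self p (by omega)
          have h2 : δ < p ^ (i + 1) := Nat.lt_pow_succ_log_self hp.one_lt δ
          have hpos : 0 < p ^ i := pow_pos hp.pos i
          have ha1 : 1 ≤ δ / p ^ i := (Nat.one_le_div_iff hpos).2 h1
          have ha2 : δ / p ^ i < p := by
            rw [Nat.div_lt_iff_lt_mul hpos, mul_comm, ← pow_succ]; exact h2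
          refine ⟨p ^ i, δ / p ^ i, δ % p ^ i, hpos, ha1, Nat.mod_lt _ hpos, ?_, ?_, ?_, ?_⟩
          · rw [mul_comm]; exact (Nat.div_add_mod δ (p ^ i)).symm
          · intro R _ _ y z
            by_cases hR : Nontrivial R
            · have : CharP R p := charP_of_injective_algebraMap (algebraMap k R).injective p
              exact add_pow_char_pow y z p i
            · have := not_nontrivial_iff_subsingleton.1 hR
              exact Subsingleton.elim _ _
          · intro r hr h0
            rw [CharP.cast_eq_zero_iff k p] at h0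
            have h3 := Nat.choose_mul_factorial_mul_factorial hr
            have h4 : p ∣ (δ / p ^ i).factorial := by
              rw [← h3, mul_assoc]; exact Dvd.dvd.mul_right h0 _
            have := (hp.dvd_factorial).1 h4
            omega
          · right
            exact ⟨i, Nat.log_pos hp.one_lt hge, rfl⟩
        · -- characteristic zero
          subst hp
          have : CharZero k := CharP.charP_to_charZero k
          refine ⟨1, δ, 0, le_refl _, hδ, by omega, by omega, fun R _ _ y z => by simp, ?_,
            Or.inl rfl⟩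
          intro r hr
          exact Nat.cast_ne_zero.2 (Nat.choose_pos hr).ne'
    -- the choice of `s`
    have hrange : ∃ s m', s ≤ a * e ∧ m = q * s + m' ∧ m' + 2 ≤ (δ' + 1) * e := by
      by_cases hbig : a * e ≤ m / q
      · refine ⟨a * e, m - q * (a * e), le_refl _, ?_, ?_⟩
        · have h1 : q * (a * e) ≤ q * (m / q) := Nat.mul_le_mul_left _ hbig
          have h2 := Nat.mul_div_le m q
          omega
        · have h1 : q * (a * e) ≤ q * (m / q) := Nat.mul_le_mul_left _ hbig
          have h2 := Nat.mul_div_le m q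
          have h3 : (δ + 1) * e = q * (a * e) + (δ' + 1) * e := by rw [hsum]; ring
          omega
      · refine ⟨m / q, m % q, by omega, (Nat.div_add_mod m q).symm, ?_⟩
        have h1 := Nat.mod_lt m (show q > 0 from hq)
        rcases hlow with rfl | ⟨i, hi, hqi⟩
        · have : δ' = 0 := by omega
          subst this
          omega
        · have h2 : p ^ i ≤ δ := by
            rw [← hqi, hsum]
            calc q = 1 * q := (one_mul q).symm
              _ ≤ a * q := Nat.mul_le_mul_right _ ha
              _ ≤ a * q + δ' := Nat.le_add_right _ _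
          have h3 := hcond i hi h2
          have h4 : δ % q = δ' := by
            rw [hsum, mul_comm, Nat.mul_add_mod, Nat.mod_eq_of_lt hδ']
          rw [← hqi, h4, mul_comm] at h3
          omega
    obtain ⟨s, m', hs, hm', hm'2⟩ := hrange
    -- the new functional
    let lam' : k[X] →ₗ[k] k := lam ∘ₗ (LinearMap.mulLeft k (X ^ (q * s)))
    have hlam' : ∀ v, lam' v = lam (X ^ (q * s) * v) := fun v => rfl
    have hδlt : δ' < δ := by
      have : q ≤ a * q := Nat.le_mul_of_pos_left q ha
      omega
    have hcond' : ∀ i, 1 ≤ i → p ^ i ≤ δ' → p ^ i < e * (δ' % p ^ i + 1) := by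
      intro i hi hpi
      have h3 := hcond i hi (hpi.trans hδlt.le)
      rcases hlow with rfl | ⟨i', hi', hqi'⟩
      · have h5 : δ' = 0 := by omega
        have h6 : p ^ i = 0 := by omega
        rw [h6]
        positivity
      · have hp1 : 1 ≤ p := by
          by_contra hne
          have hp0 : p = 0 := by omega
          rw [hp0, zero_pow (by omega)] at hqi'
          omega
        have h5 : i < i' := by
          by_contra hge
          have := Nat.pow_le_pow_right hp1 (show i' ≤ i by omega)
          omega
        have h6 : p ^ i ∣ a * q := by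
          rw [hqi']; exact Dvd.dvd.mul_left (pow_dvd_pow p h5.le) a
        have h7 : δ % p ^ i = δ' % p ^ i := by
          rw [hsum, Nat.add_mod, Nat.mod_eq_zero_of_dvd h6, zero_add, Nat.mod_mod]
        rwa [h7] at h3
    have h1 := ih δ' hδlt hcond' lam' (fun g w hg hw => by
        rw [hlam']
        exact span_step hq ha hδ' hadd hch lam (fun g w hg hw => by
          rw [← hsum]; exact h g w hg hw) hs g w hg hw) m' hm'2
    rw [hlam', ← pow_add, ← hm'] at h1
    exact h1

end Pool.Agent.Helper41.CI
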