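import Pool.Agent.Helper41.CI.Chart
import Pool.Agent.Helper41.CI.Crit
import Pool.Agent.Helper41.CI.Span

/-!
Every smooth complete intersection of degrees `d_l ≥ 2` in `P^N`, `N + 1 ≥ 2 e ∑ d_l`,
contains a very free rational curve of degree `e ≥ 2`, if `e ((d_l - 1 mod q) + 1) > q` for all
powers `q ≤ d_l - 1` of the characteristic.
-/

open Finset

namespace Pool.Agent.Helper41.CI

universe u v

variable {k : Type u} [Field k] {N c e : ℕ}

/-! ### base change of `P(f_u)` -/

theorem map_cur {A B : Type*} [CommRing A] [CommRing B] [Algebra k A] [Algebra k B]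
    (φ : A →ₐ[k] B) (u : Fin (e + 1) → Fin (N + 1) → A) (P : MvPolynomial (Fin (N + 1)) k) :
    (MvPolynomial.aeval (cur u) P).map (φ : A →+* B) =
      MvPolynomial.aeval (cur (fun j i => φ (u j i))) P := by
  have h1 : (Polynomial.mapAlgHom φ).comp (MvPolynomial.aeval (cur u)) =
      MvPolynomial.aeval (R := k) (cur (fun j i => φ (u j i))) := by
    apply MvPolynomial.algHom_ext
    intro i
    rw [AlgHom.comp_apply, MvPolynomial.aeval_X, MvPolynomial.aeval_X]
    simp [cur]
  have h2 := congrArg (fun ψ => ψ P) h1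
  simp only [AlgHom.comp_apply] at h2
  rw [← h2]
  rfl

theorem map_aeval_cur {A B : Type*} [CommRing A] [CommRing B] [Algebra k A] [Algebra k B]
    (φ : A →ₐ[k] B) (u : Fin (e + 1) → Fin (N + 1) → A) (P : MvPolynomial (Fin (N + 1)) k) (m : ℕ) :
    φ ((MvPolynomial.aeval (cur u) P).coeff m) =
      (MvPolynomial.aeval (cur (fun j i => φ (u j i))) P).coeff m := by
  rw [← map_cur, Polynomial.coeff_map]
  rfl

theorem map_aeval_cur_mul {A B : Type*} [CommRing A] [CommRing B] [Algebra k A] [Algebra k B]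
    (φ : A →ₐ[k] B) (u : Fin (e + 1) → Fin (N + 1) → A) (P : MvPolynomial (Fin (N + 1)) k)
    (w : Polynomial k) (m : ℕ) :
    φ ((MvPolynomial.aeval (cur u) P * w.map (algebraMap k A)).coeff m) =
      (MvPolynomial.aeval (cur (fun j i => φ (u j i))) P * w.map (algebraMap k B)).coeff m := by
  rw [← map_cur, show w.map (algebraMap k B) = (w.map (algebraMap k A)).map (φ : A →+* B) by
    rw [Polynomial.map_map]; congr 1; ext x; simp, ← Polynomial.map_mul, Polynomial.coeff_map]
  rfl

/-! ### homogeneity of the coefficients -/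

/-- all coefficients are homogeneous of degree `n` -/
def HomC {n : ℕ} (D : ℕ) (Q : Polynomial (MvPolynomial (Fin n) k)) : Prop :=
  ∀ m, (Q.coeff m).IsHomogeneous D

theorem HomC.mul {n D D' : ℕ} {Q Q' : Polynomial (MvPolynomial (Fin n) k)} (h : HomC D Q)
    (h' : HomC D' Q') : HomC (D + D') (Q * Q') := by
  intro m
  rw [Polynomial.coeff_mul]
  exact MvPolynomial.IsHomogeneous.sum _ _ _ fun p _ => (h _).mul (h' _)

theorem homC_one {n : ℕ} : HomC 0 (1 : Polynomial (MvPolynomial (Fin n) k)) := by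
  intro m
  rw [Polynomial.coeff_one]
  split_ifs
  · exact MvPolynomial.isHomogeneous_one _ _
  · exact MvPolynomial.isHomogeneous_zero _ _ _

theorem HomC.pow {n D : ℕ} {Q : Polynomial (MvPolynomial (Fin n) k)} (h : HomC D Q) (m : ℕ) :
    HomC (m * D) (Q ^ m) := by
  induction m with
  | zero => simpa using homC_one
  | succ m ih => rw [pow_succ, Nat.succ_mul]; exact ih.mul h

theorem HomC.prod {n : ℕ} {τ : Type*} (s : Finset τ) {D : τ → ℕ}
    {Q : τ → Polynomial (MvPolynomial (Fin n) k)} (h : ∀ t ∈ s, HomC (D t) (Q t)) :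
    HomC (∑ t ∈ s, D t) (∏ t ∈ s, Q t) := by
  classical
  induction s using Finset.induction_on with
  | empty => simpa using homC_one
  | insert t s ht ih =>
    rw [Finset.prod_insert ht, Finset.sum_insert ht]
    exact (h t (Finset.mem_insert_self _ _)).mul
      (ih fun t' ht' => h t' (Finset.mem_insert_of_mem ht'))

theorem homC_aeval {n D : ℕ} (U : Fin (e + 1) → Fin (N + 1) → MvPolynomial (Fin n) k)
    (hU : ∀ j i, (U j i).IsHomogeneous 1) (P : MvPolynomial (Fin (N + 1)) k)
    (hP : P.IsHomogeneous D) : HomC D (MvPolynomial.aeval (cur U) P) := by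
  intro m
  rw [P.as_sum, map_sum, Polynomial.finsetSum_coeff]
  refine MvPolynomial.IsHomogeneous.sum _ _ _ fun s hs => ?_
  have h1 : ∑ i, s i = D := by
    have := hP (MvPolynomial.mem_support_iff.1 hs)
    rw [← this]
    simp [Finsupp.weight_apply, Finsupp.sum_fintype]
  have h2 : ∀ i, HomC 1 (cur U i) := by
    intro i m
    unfold cur
    rw [Polynomial.finsetSum_coeff]
    refine MvPolynomial.IsHomogeneous.sum _ _ _ fun j _ => ?_
    rw [Polynomial.coeff_C_mul_X_pow]
    split_ifs
    · exact hU j i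
    · exact MvPolynomial.isHomogeneous_zero _ _ _
  have h3 := HomC.prod (k := k) (n := n) univ (D := fun i => s i * 1) (Q := fun i => cur U i ^ s i)
    (fun i _ => (h2 i).pow (s i))
  simp only [mul_one] at h3
  rw [h1] at h3
  rw [MvPolynomial.aeval_monomial, Finsupp.prod_fintype _ _ (fun i => pow_zero _)]
  have h4 : algebraMap k (Polynomial (MvPolynomial (Fin n) k)) (P.coeff s) =
      Polynomial.C (MvPolynomial.C (P.coeff s)) := rfl
  rw [h4, Polynomial.coeff_C_mul]
  have := (MvPolynomial.isHomogeneous_C (Fin n) (P.coeff s)).mul (h3 m)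
  rwa [zero_add] at this

theorem exists_common_zero' [IsAlgClosed k] {n : ℕ} {T : Type*} [Fintype T]
    (hr : Fintype.card T < n) (g : T → MvPolynomial (Fin n) k) (D : T → ℕ) (hD : ∀ i, 0 < D i)
    (hg : ∀ i, (g i).IsHomogeneous (D i)) :
    ∃ x : Fin n → k, x ≠ 0 ∧ ∀ i, MvPolynomial.eval x (g i) = 0 := by
  let φ := Fintype.equivFin T
  obtain ⟨x, hx, h⟩ := exists_common_zero hr (fun i => g (φ.symm i)) (fun i => D (φ.symm i))
    (fun i => hD _) (fun i => hg _)
  refine ⟨x, hx, fun i => ?_⟩
  have := h (φ i)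
  simpa using this

/-! ### linear algebra -/

theorem surj_or_dual {P Q : Type*} [Fintype P] [Fintype Q] [DecidableEq P] [DecidableEq Q]
    (B : P → Q → k) : (∀ g : P → k, ∃ w : Q → k, ∀ p, ∑ q, B p q * w q = g p) ∨
      ∃ lam : P → k, lam ≠ 0 ∧ ∀ q, ∑ p, lam p * B p q = 0 := by
  let Φ : (Q → k) →ₗ[k] (P → k) := Matrix.mulVecLin (Matrix.of B)
  by_cases h : LinearMap.range Φ = ⊤
  · left
    intro g
    obtain ⟨w, hw⟩ := LinearMap.range_eq_top.1 h g
    refine ⟨w, fun p => ?_⟩
    rw [← hw]
    rfl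
  · right
    obtain ⟨f, hf0, hf⟩ := Submodule.exists_le_ker_of_lt_top _ (lt_top_iff_ne_top.2 h)
    refine ⟨fun p => f (Pi.single p 1), fun h0 => hf0 ?_, fun q => ?_⟩
    · apply LinearMap.pi_ext'
      intro p
      ext
      have := congrFun h0 p
      simpa using this
    · have h1 : Φ (Pi.single q 1) ∈ LinearMap.ker f := hf ⟨_, rfl⟩
      rw [LinearMap.mem_ker] at h1
      have h2 : Φ (Pi.single q 1) = ∑ p, B p q • (Pi.single p (1 : k) : P → k) := by
        funext p
        simp [Φ, Finset.sum_apply, Pi.single_apply]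
      rw [h2, map_sum] at h1
      rw [← h1]
      refine Finset.sum_congr rfl fun p _ => ?_
      rw [map_smul, smul_eq_mul, mul_comm]

section Main

variable {F : Fin c → MvPolynomial (Fin (N + 1)) k} {d : Fin c → ℕ}

/-- the pairs `(u, lam)` on the chart belonging to `ls`, `g`, `w` -/
structure OnChart (F : Fin c → MvPolynomial (Fin (N + 1)) k) (d : Fin c → ℕ) (ls : Fin c)
    (g w : Polynomial k) (u : Fin (e + 1) → Fin (N + 1) → k) (lam : Fin c → ℕ → k) : Prop where
  hY : ∀ l, MvPolynomial.aeval (cur u) (F l) = 0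
  h1 : ∑ n ∈ range (d ls * e - 1), lam ls n * (g ^ (d ls - 1) * w).coeff n = 1
  hz : ∀ l, d ls < d l → ∀ n, lam l n = 0
  hrel : ∀ m, ∑ l, ∑ n ∈ range (d l * e - 1), lam l n *
      (MvPolynomial.aeval (cur u) (MvPolynomial.pderiv m (F l)) * w).coeff n = 0

/-- the surjectivity condition -/
def Onto (F : Fin c → MvPolynomial (Fin (N + 1)) k) (d : Fin c → ℕ)
    (u : Fin (e + 1) → Fin (N + 1) → k) : Prop :=
  ∀ g : Fin c → Polynomial k, (∀ l, (g l).natDegree ≤ d l * e - 2) →
    ∃ w : Fin (N + 1) → Polynomial k, (∀ m, (w m).natDegree ≤ e - 2) ∧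
      ∀ l, ∑ m, MvPolynomial.aeval (cur u) (MvPolynomial.pderiv m (F l)) * w m = g l

theorem onto_or_bad (hF : ∀ l, (F l).IsHomogeneous (d l)) (hd2 : ∀ l, 2 ≤ d l)
    (he2 : 2 ≤ e) (u : Fin (e + 1) → Fin (N + 1) → k) :
    Onto F d u ∨ ∃ lam : Fin c → ℕ → k, (∃ l, ∃ n < d l * e - 1, lam l n ≠ 0) ∧
      (∀ l n, d l * e - 1 ≤ n → lam l n = 0) ∧
      ∀ w : Polynomial k, w.natDegree ≤ e - 2 → ∀ m, ∑ l, ∑ n ∈ range (d l * e - 1), lam l n *
        (MvPolynomial.aeval (cur u) (MvPolynomial.pderiv m (F l)) * w).coeff n = 0 := by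
  classical
  let B : (Σ l : Fin c, Fin (d l * e - 1)) → (Fin (e - 1) × Fin (N + 1)) → k := fun p q =>
    (MvPolynomial.aeval (cur u) (MvPolynomial.pderiv q.2 (F p.1)) *
      Polynomial.X ^ (q.1 : ℕ)).coeff p.2
  rcases surj_or_dual B with hsurj | ⟨lam0, hlam0, hrel0⟩
  · left
    intro g hg
    obtain ⟨w, hw⟩ := hsurj (fun p => (g p.1).coeff p.2)
    let W : Fin (N + 1) → Polynomial k := fun m =>
      ∑ i : Fin (e - 1), Polynomial.C (w (i, m)) * Polynomial.X ^ (i : ℕ)
    have hWd : ∀ m, (W m).natDegree ≤ e - 2 := by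
      intro m
      refine Polynomial.natDegree_sum_le_of_forall_le _ _ fun i _ => ?_
      exact (Polynomial.natDegree_C_mul_X_pow_le _ _).trans (by omega)
    refine ⟨W, hWd, fun l => ?_⟩
    have hde : (d l - 1) * e + (e - 2) = d l * e - 2 := by
      have h1 : d l * e = (d l - 1) * e + e := by
        conv_lhs => rw [show d l = (d l - 1) + 1 by have := hd2 l; omega]
        ring
      omega
    have hde4 : 4 ≤ d l * e := Nat.mul_le_mul (hd2 l) he2
    ext n
    by_cases hn : n < d l * e - 1
    · rw [← hw ⟨l, ⟨n, hn⟩⟩, Polynomial.finsetSum_coeff, Fintype.sum_prod_type_right]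
      refine Finset.sum_congr rfl fun m _ => ?_
      rw [Finset.mul_sum, Polynomial.finsetSum_coeff]
      refine Finset.sum_congr rfl fun i _ => ?_
      rw [mul_left_comm, Polynomial.coeff_C_mul]
      exact mul_comm _ _
    · have h1 : (g l).coeff n = 0 := Polynomial.coeff_eq_zero_of_natDegree_lt (by
        have := hg l
        omega)
      rw [h1, Polynomial.finsetSum_coeff]
      refine Finset.sum_eq_zero fun m _ => ?_
      apply Polynomial.coeff_eq_zero_of_natDegree_lt
      have h2 := (aeval_homogenize u _ ((hF l).pderiv (i := m))).1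
      have h3 := Polynomial.natDegree_mul_le
        (p := MvPolynomial.aeval (cur u) (MvPolynomial.pderiv m (F l))) (q := W m)
      have h4 := hWd m
      omega
  · right
    obtain ⟨q0, hq0⟩ : ∃ q, lam0 q ≠ 0 := by
      by_contra h
      push Not at h
      exact hlam0 (funext h)
    let lam : Fin c → ℕ → k := fun l n => if h : n < d l * e - 1 then lam0 ⟨l, ⟨n, h⟩⟩ else 0
    have hlam : ∀ p : Σ l : Fin c, Fin (d l * e - 1), lam p.1 p.2 = lam0 p := by
      intro p
      show (if h : (p.2 : ℕ) < d p.1 * e - 1 then lam0 ⟨p.1, ⟨p.2, h⟩⟩ else 0) = _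
      rw [dif_pos p.2.2]
    refine ⟨lam, ⟨q0.1, q0.2, q0.2.2, by rw [hlam]; exact hq0⟩, ?_, ?_⟩
    · intro l n hn
      exact dif_neg (by omega)
    · intro w hw m
      have h1 : ∀ i : ℕ, i < e - 1 → ∑ l, ∑ n ∈ range (d l * e - 1), lam l n *
          (MvPolynomial.aeval (cur u) (MvPolynomial.pderiv m (F l)) *
            Polynomial.X ^ i).coeff n = 0 := by
        intro i hi
        have h2 := hrel0 (⟨i, hi⟩, m)
        rw [Fintype.sum_sigma] at h2
        rw [← h2]
        refine Finset.sum_congr rfl fun l _ => ?_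
        rw [Finset.sum_range]
        refine Finset.sum_congr rfl fun n _ => ?_
        rw [← hlam]
      -- linearity
      have h2 : w = ∑ i ∈ range (e - 1), Polynomial.C (w.coeff i) * Polynomial.X ^ i :=
        w.as_sum_range_C_mul_X_pow' (by omega)
      have h3 : ∀ l n, (MvPolynomial.aeval (cur u) (MvPolynomial.pderiv m (F l)) * w).coeff n =
          ∑ i ∈ range (e - 1), w.coeff i *
            (MvPolynomial.aeval (cur u) (MvPolynomial.pderiv m (F l)) *
              Polynomial.X ^ i).coeff n := by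
        intro l n
        conv_lhs => rw [h2]
        rw [Finset.mul_sum, Polynomial.finsetSum_coeff]
        refine Finset.sum_congr rfl fun i _ => ?_
        rw [mul_left_comm, Polynomial.coeff_C_mul]
      calc ∑ l, ∑ n ∈ range (d l * e - 1), lam l n *
            (MvPolynomial.aeval (cur u) (MvPolynomial.pderiv m (F l)) * w).coeff n
          = ∑ l, ∑ n ∈ range (d l * e - 1), ∑ i ∈ range (e - 1), w.coeff i * (lam l n *
            (MvPolynomial.aeval (cur u) (MvPolynomial.pderiv m (F l)) *
              Polynomial.X ^ i).coeff n) := by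
            refine Finset.sum_congr rfl fun l _ => Finset.sum_congr rfl fun n _ => ?_
            rw [h3, Finset.mul_sum]
            exact Finset.sum_congr rfl fun i _ => by ring
        _ = ∑ l, ∑ i ∈ range (e - 1), ∑ n ∈ range (d l * e - 1), w.coeff i * (lam l n *
            (MvPolynomial.aeval (cur u) (MvPolynomial.pderiv m (F l)) *
              Polynomial.X ^ i).coeff n) :=
            Finset.sum_congr rfl fun l _ => Finset.sum_comm
        _ = ∑ i ∈ range (e - 1), w.coeff i * ∑ l, ∑ n ∈ range (d l * e - 1), (lam l n *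
            (MvPolynomial.aeval (cur u) (MvPolynomial.pderiv m (F l)) *
              Polynomial.X ^ i).coeff n) := by
            rw [Finset.sum_comm]
            refine Finset.sum_congr rfl fun i _ => ?_
            rw [Finset.mul_sum]
            exact Finset.sum_congr rfl fun l _ => by rw [Finset.mul_sum]
        _ = 0 := by
            refine Finset.sum_eq_zero fun i hi => ?_
            rw [h1 i (Finset.mem_range.1 hi), mul_zero]

/-- finitely many pairs `(g, w)` suffice -/
theorem exists_charts [IsAlgClosed k] (p : ℕ) [CharP k p] (he2 : 2 ≤ e) {δ : ℕ}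
    (hcond : ∀ i, 1 ≤ i → p ^ i ≤ δ → p ^ i < e * (δ % p ^ i + 1)) :
    ∃ T : Finset (Polynomial k × Polynomial k), (∀ t ∈ T, t.1.natDegree ≤ e ∧
      t.2.natDegree ≤ e - 2) ∧ ∀ lam : ℕ → k, (∃ n < (δ + 1) * e - 1, lam n ≠ 0) →
        ∃ t ∈ T, ∑ n ∈ range ((δ + 1) * e - 1), lam n * (t.1 ^ δ * t.2).coeff n ≠ 0 := by
  classical
  have : Infinite k := IsAlgClosed.instInfinite
  set S : Set (Polynomial k) := {v | ∃ g w : Polynomial k, g.natDegree ≤ e ∧
    w.natDegree ≤ e - 2 ∧ v = g ^ δ * w} with hS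
  have hX : ∀ m < (δ + 1) * e - 1, (Polynomial.X ^ m : Polynomial k) ∈ Submodule.span k S := by
    intro m hm
    by_contra hcon
    obtain ⟨f, hf1, hf2⟩ := Submodule.exists_le_ker_of_notMem hcon
    exact hf1 (span_main p he2 δ hcond f (fun g w hg hw => by
      have : g ^ δ * w ∈ LinearMap.ker f := hf2 (Submodule.subset_span ⟨g, w, hg, hw, rfl⟩)
      exact this) m (by omega))
  have hfin : ∀ m, ∃ T : Finset (Polynomial k), (T : Set (Polynomial k)) ⊆ S ∧
      (m < (δ + 1) * e - 1 → (Polynomial.X ^ m : Polynomial k) ∈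
        Submodule.span k (T : Set (Polynomial k))) := by
    intro m
    by_cases hm : m < (δ + 1) * e - 1
    · obtain ⟨T, hT1, hT2⟩ := Submodule.mem_span_finite_of_mem_span (hX m hm)
      exact ⟨T, hT1, fun _ => hT2⟩
    · exact ⟨∅, by simp, fun h => absurd h hm⟩
  choose T hTS hTX using hfin
  set T' : Finset (Polynomial k) := (range ((δ + 1) * e - 1)).biUnion T with hT'
  have hT'S : ∀ v ∈ T', v ∈ S := by
    intro v hv
    obtain ⟨m, -, hm⟩ := Finset.mem_biUnion.1 hv
    exact hTS m hm
  have hpair : ∀ v : Polynomial k, ∃ t : Polynomial k × Polynomial k, v ∈ S →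
      t.1.natDegree ≤ e ∧ t.2.natDegree ≤ e - 2 ∧ v = t.1 ^ δ * t.2 := by
    intro v
    by_cases hv : v ∈ S
    · obtain ⟨g, w, h1, h2, h3⟩ := hv
      exact ⟨(g, w), fun _ => ⟨h1, h2, h3⟩⟩
    · exact ⟨(0, 0), fun h => absurd h hv⟩
  choose t ht using hpair
  refine ⟨T'.image t, ?_, ?_⟩
  · intro s hs
    obtain ⟨v, hv, rfl⟩ := Finset.mem_image.1 hs
    exact ⟨(ht v (hT'S v hv)).1, (ht v (hT'S v hv)).2.1⟩
  · rintro lam ⟨m, hm, hlm⟩
    by_contra hcon
    push Not at hcon
    let f : Polynomial k →ₗ[k] k := ∑ n ∈ range ((δ + 1) * e - 1), lam n • Polynomial.lcoeff k n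
    have hf : ∀ v, f v = ∑ n ∈ range ((δ + 1) * e - 1), lam n * v.coeff n := by
      intro v
      simp [f, LinearMap.sum_apply]
    have h1 : Submodule.span k (T' : Set (Polynomial k)) ≤ LinearMap.ker f := by
      refine Submodule.span_le.2 fun v hv => ?_
      have h2 := hcon (t v) (Finset.mem_image_of_mem t hv)
      have h3 := (ht v (hT'S v hv)).2.2
      show f v = 0
      rw [hf, h3]; exact h2
    have h2 : (Polynomial.X ^ m : Polynomial k) ∈ LinearMap.ker f := by
      apply h1
      refine Submodule.span_mono ?_ (hTX m hm)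
      intro v hv
      exact Finset.mem_biUnion.2 ⟨m, Finset.mem_range.2 hm, hv⟩
    apply hlm
    have h3 : f (Polynomial.X ^ m) = 0 := h2
    rw [hf] at h3
    simp only [Polynomial.coeff_X_pow] at h3
    rw [Finset.sum_eq_single m] at h3
    · simpa using h3
    · intro b _ hb; rw [if_neg hb, mul_zero]
    · intro h4; exact absurd (Finset.mem_range.2 hm) h4

/-- any `M + 1` linear forms are algebraically dependent on a chart -/
theorem exists_relation_chart [IsAlgClosed k] (hF : ∀ l, (F l).IsHomogeneous (d l))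
    (hd2 : ∀ l, 2 ≤ d l) (hX : SmoothCI F) (ls : Fin c) (g w : Polynomial k)
    (hg : g.natDegree ≤ e) (M : ℕ)
    (hM : e * (N + 1) + (∑ l, (d l * e - 1) - 1) ≤ M)
    (π : (Fin (e + 1) → Fin (N + 1) → k) →ₗ[k] (Fin (M + 1) → k)) :
    ∃ P : MvPolynomial (Fin (M + 1)) k, P ≠ 0 ∧
      ∀ (u : Fin (e + 1) → Fin (N + 1) → k) (lam : Fin c → ℕ → k), OnChart F d ls g w u lam →
        MvPolynomial.eval (π u) P = 0 := by
  classical
  by_cases hempty : ∀ (u : Fin (e + 1) → Fin (N + 1) → k) (lam : Fin c → ℕ → k),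
      ¬ OnChart F d ls g w u lam
  · exact ⟨1, one_ne_zero, fun u lam h => absurd h (hempty u lam)⟩
  push Not at hempty
  obtain ⟨u₀, lam₀, hch⟩ := hempty
  obtain ⟨ns, hns, hcoeff⟩ : ∃ ns, ns < d ls * e - 1 ∧ (g ^ (d ls - 1) * w).coeff ns ≠ 0 := by
    by_contra hcon
    push Not at hcon
    have h1 := hch.h1
    rw [Finset.sum_eq_zero fun n hn => by rw [hcon n (Finset.mem_range.1 hn), mul_zero]] at h1
    exact zero_ne_one h1
  obtain ⟨j, hj⟩ : ∃ j : Fin (e + 1), g.coeff j ≠ 0 := by
    have hg0 : g ≠ 0 := by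
      rintro rfl
      apply hcoeff
      rw [zero_pow (by have := hd2 ls; omega), zero_mul, Polynomial.coeff_zero]
    refine ⟨⟨g.natDegree, by omega⟩, ?_⟩
    exact Polynomial.leadingCoeff_ne_zero.2 hg0
  let S := {s : (Fin (e + 1) → Fin (N + 1) → k) × (Fin c → ℕ → k) // OnChart F d ls g w s.1 s.2}
  let u : Fin (e + 1) → Fin (N + 1) → (S → k) := fun j i s => s.1.1 j i
  let lam : Fin c → ℕ → (S → k) := fun l n s => s.1.2 l n
  have hY : ∀ l, MvPolynomial.aeval (cur u) (F l) = 0 := by
    intro l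
    ext m s
    have h1 := map_aeval_cur (Pi.evalAlgHom k (fun _ : S => k) s) u (F l) m
    have h2 : (MvPolynomial.aeval (cur (fun j i => (Pi.evalAlgHom k (fun _ : S => k) s) (u j i)))
        (F l)) = 0 := s.2.hY l
    rw [h2] at h1
    simpa using h1
  have h1 : ∑ n ∈ range (d ls * e - 1), lam ls n *
      algebraMap k (S → k) ((g ^ (d ls - 1) * w).coeff n) = 1 := by
    funext s
    rw [Finset.sum_apply, Pi.one_apply, ← s.2.h1]
    exact Finset.sum_congr rfl fun n _ => rfl
  have hz : ∀ l, d ls < d l → ∀ n, lam l n = 0 := by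
    intro l hl n
    funext s; exact s.2.hz l hl n
  have hrel : ∀ m, ∑ l, ∑ n ∈ range (d l * e - 1), lam l n *
      (MvPolynomial.aeval (cur u) (MvPolynomial.pderiv m (F l)) *
        w.map (algebraMap k (S → k))).coeff n = 0 := by
    intro m
    funext s
    have h2 := s.2.hrel m
    rw [Finset.sum_apply, Pi.zero_apply, ← h2]
    refine Finset.sum_congr rfl fun l _ => ?_
    rw [Finset.sum_apply]
    refine Finset.sum_congr rfl fun n _ => ?_
    rw [Pi.mul_apply]
    have h3 := map_aeval_cur_mul (Pi.evalAlgHom k (fun _ : S => k) s) u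
      (MvPolynomial.pderiv m (F l)) w n
    have h4 : w.map (algebraMap k k) = w := by
      rw [Algebra.algebraMap_self, Polynomial.map_id]
    rw [h4] at h3
    congr 1
  obtain ⟨K, hK, hint⟩ := exists_integral hF hd2 hX g w hg u lam j hj hY hns hcoeff h1 hz hrel
  -- linear forms
  have hlin : ∀ t, (fun s : S => π s.1.1 t) ∈
      Fil k (blk g u j) (rest g u lam j d ⟨ls, ⟨ns, hns⟩⟩) 1 2 := by
    intro t
    have h2 : (fun s : S => π s.1.1 t) =
        ∑ j', ∑ i, (π (Pi.single j' (Pi.single i 1)) t) • u j' i := by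
      funext s
      have h3 : s.1.1 = ∑ j', ∑ i, s.1.1 j' i •
          (Pi.single j' (Pi.single i (1 : k)) : Fin (e + 1) → Fin (N + 1) → k) := by
        funext a b
        simp only [Finset.sum_apply, Pi.smul_apply, smul_eq_mul]
        rw [Finset.sum_eq_single a, Finset.sum_eq_single b]
        · simp
        · intro b' _ hb'; simp [hb'.symm]
        · intro h; exact absurd (mem_univ _) h
        · intro a' _ ha'
          refine Finset.sum_eq_zero fun b' _ => ?_
          simp [ha'.symm]
        · intro h; exact absurd (mem_univ _) h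
      rw [Finset.sum_apply]
      conv_lhs => rw [h3]
      simp only [map_sum, map_smul, Finset.sum_apply, Pi.smul_apply, smul_eq_mul]
      refine Finset.sum_congr rfl fun j' _ => Finset.sum_congr rfl fun i _ => ?_
      exact mul_comm _ _
    rw [h2]
    refine Submodule.sum_mem _ fun j' _ => Submodule.sum_mem _ fun i _ =>
      Submodule.smul_mem _ _ ?_
    by_cases hjj : j' = j
    · subst hjj
      have h3 : u j' i = g.coeff j' • blk g u j' i := by
        rw [blk, smul_smul, mul_inv_cancel₀ hj, one_smul]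
      rw [h3]
      exact Submodule.smul_mem _ _ (w_mem_Fil i)
    · have h3 : u j' i = (u j' i - g.coeff j' • blk g u j i) + g.coeff j' • blk g u j i := by
        rw [sub_add_cancel]
      rw [h3]
      refine Submodule.add_mem _ ?_ (Submodule.smul_mem _ _ (w_mem_Fil i))
      exact Fil_mono (by omega) (by omega) (z_mem_Fil (k := k) (w := blk g u j)
        (z := rest g u lam j d ⟨ls, ⟨ns, hns⟩⟩)
        (Sum.inl (⟨j', hjj⟩, i) : Rest N e j d ⟨ls, ⟨ns, hns⟩⟩))
  obtain ⟨P, hP0, hP⟩ := exists_relation hK hint M (by rw [card_rest]; exact hM)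
    (fun t => (fun s : S => π s.1.1 t)) hlin
  refine ⟨P, hP0, fun u' lam' h => ?_⟩
  have h2 := congrFun hP ⟨(u', lam'), h⟩
  have h3 : (MvPolynomial.aeval (fun t => (fun s : S => π s.1.1 t)) P) ⟨(u', lam'), h⟩ =
      MvPolynomial.aeval (fun t => π u' t) P := by
    have := MvPolynomial.comp_aeval_apply (fun t => (fun s : S => π s.1.1 t))
      (Pi.evalAlgHom k (fun _ : S => k) ⟨(u', lam'), h⟩) P
    simpa using this
  rw [h3] at h2
  rw [← MvPolynomial.aeval_eq_eval]
  exact h2

/-- **Theorem.** -/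
theorem main [IsAlgClosed k] (p : ℕ) [CharP k p] (hc : 0 < c)
    (hF : ∀ l, (F l).IsHomogeneous (d l)) (hd2 : ∀ l, 2 ≤ d l) (he2 : 2 ≤ e)
    (hcond : ∀ l i, 1 ≤ i → p ^ i ≤ d l - 1 → p ^ i < e * ((d l - 1) % p ^ i + 1))
    (hX : SmoothCI F) (hN : 2 * e * ∑ l, d l ≤ N + 1) :
    ∃ γ : RationalCurve F, γ.e = e ∧ γ.VeryFree := by
  classical
  by_contra hcon
  have hdl1 : ∀ l, d l - 1 + 1 = d l := fun l => by have := hd2 l; omega
  choose T hTdeg hT using fun l => exists_charts (k := k) p he2 (hcond l)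
  simp only [hdl1] at hT
  -- all `u` are bad
  set Y : Set (Fin (e + 1) → Fin (N + 1) → k) :=
    {u | ∀ l, MvPolynomial.aeval (cur u) (F l) = 0} with hYdef
  have hbad : ∀ u ∈ Y, ∃ (q : Σ l : Fin c, {t // t ∈ T l}) (lam : Fin c → ℕ → k),
      OnChart F d q.1 q.2.1.1 q.2.1.2 u lam := by
    intro u hu
    rcases onto_or_bad hF hd2 he2 u with h | ⟨lam, ⟨l₀, n₀, hn₀, hl₀⟩, hlam, hrel⟩
    · exact absurd (veryFree_of_onto hc hF hd2 he2 u hu h) hcon
    · -- the maximal degree
      obtain ⟨ls, hls, hmax⟩ := Finset.exists_max_image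
        (univ.filter fun l : Fin c => ∃ n < d l * e - 1, lam l n ≠ 0) d
        ⟨l₀, by simpa using ⟨n₀, hn₀, hl₀⟩⟩
      have hls' : ∃ n < d ls * e - 1, lam ls n ≠ 0 := by simpa using hls
      obtain ⟨t, ht, hne⟩ := hT ls (lam ls) hls'
      set a := ∑ n ∈ range (d ls * e - 1), lam ls n * (t.1 ^ (d ls - 1) * t.2).coeff n with ha
      refine ⟨⟨ls, ⟨t, ht⟩⟩, fun l n => a⁻¹ * lam l n, hu, ?_, ?_, ?_⟩
      · show ∑ n ∈ range (d ls * e - 1), a⁻¹ * lam ls n * (t.1 ^ (d ls - 1) * t.2).coeff n = 1
        simp only [mul_assoc]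
        rw [← Finset.mul_sum, ← ha, inv_mul_cancel₀ hne]
      · intro l hl n
        show a⁻¹ * lam l n = 0
        rw [mul_eq_zero]
        right
        by_contra hne'
        have hn : n < d l * e - 1 := by
          by_contra hge
          exact hne' (hlam l n (by omega))
        have h1 := hmax l (by simpa using ⟨n, hn, hne'⟩)
        have h2 : d ls < d l := hl
        omega
      · intro m
        have h1 := hrel t.2 (hTdeg ls t ht).2 m
        show ∑ l, ∑ n ∈ range (d l * e - 1), a⁻¹ * lam l n *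
          (MvPolynomial.aeval (cur u) (MvPolynomial.pderiv m (F l)) * t.2).coeff n = 0
        simp only [mul_assoc, ← Finset.mul_sum]
        rw [h1, mul_zero]
  -- `Y` is a cone
  have hcone : ∀ y ∈ Y, ∀ a : k, a • y ∈ Y := by
    intro y hy a l
    have h1 : cur (a • y) = fun i => Polynomial.C a * cur y i := by
      funext i
      simp only [cur, Pi.smul_apply, smul_eq_mul, Finset.mul_sum, Polynomial.C_mul]
      exact Finset.sum_congr rfl fun j _ => by ring
    have h2 : MvPolynomial.aeval (cur (a • y)) (F l) =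
        Polynomial.C a ^ d l * MvPolynomial.aeval (cur y) (F l) := by
      rw [h1]
      rw [(F l).as_sum, map_sum, map_sum, Finset.mul_sum]
      refine Finset.sum_congr rfl fun s hs => ?_
      have h3 : ∑ i, s i = d l := by
        have := hF l (MvPolynomial.mem_support_iff.1 hs)
        rw [← this]
        simp [Finsupp.weight_apply, Finsupp.sum_fintype]
      rw [MvPolynomial.aeval_monomial, MvPolynomial.aeval_monomial,
        Finsupp.prod_fintype _ _ (fun i => pow_zero _),
        Finsupp.prod_fintype _ _ (fun i => pow_zero _)]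
      simp only [mul_pow, Finset.prod_mul_distrib]
      rw [Finset.prod_pow_eq_pow_sum, h3]
      ring
    rw [h2, hy l, mul_zero]
  have hzero : (0 : Fin (e + 1) → Fin (N + 1) → k) ∈ Y := by
    intro l
    have h1 : cur (0 : Fin (e + 1) → Fin (N + 1) → k) = 0 := by
      funext i; simp [cur]
    rw [h1]
    have h2 := MvPolynomial.aeval_zero (R := k) (S₁ := Polynomial k) (σ := Fin (N + 1)) (F l)
    rw [h2, MvPolynomial.constantCoeff_eq]
    have h3 : (F l).coeff 0 = 0 := (hF l).coeff_eq_zero (d := 0) (by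
      have := hd2 l
      simp; omega)
    rw [h3, map_zero]
  obtain ⟨W, hW, hWY⟩ := exists_complement Y hcone hzero
  -- the dimension of `W`
  have hdimW : Module.finrank k W ≤ ∑ l, (d l * e + 1) := by
    by_contra hlt
    push Not at hlt
    set n := Module.finrank k W with hn
    let b : Module.Basis (Fin n) k W := Module.finBasis k W
    let U : Fin (e + 1) → Fin (N + 1) → MvPolynomial (Fin n) k := fun j i =>
      ∑ t, MvPolynomial.C ((b t : Fin (e + 1) → Fin (N + 1) → k) j i) * MvPolynomial.X t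
    have hU : ∀ j i, (U j i).IsHomogeneous 1 := by
      intro j i
      refine MvPolynomial.IsHomogeneous.sum _ _ _ fun t _ => ?_
      simpa using (MvPolynomial.isHomogeneous_C (Fin n)
        ((b t : Fin (e + 1) → Fin (N + 1) → k) j i)).mul (MvPolynomial.isHomogeneous_X k t)
    obtain ⟨x, hx0, hx⟩ := exists_common_zero' (k := k) (n := n)
      (T := Σ l : Fin c, Fin (d l * e + 1)) (by simpa [Fintype.card_sigma] using hlt)
      (fun p => (MvPolynomial.aeval (cur U) (F p.1)).coeff p.2) (fun p => d p.1)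
      (fun p => by have := hd2 p.1; omega) (fun p => homC_aeval U hU _ (hF p.1) _)
    set y : Fin (e + 1) → Fin (N + 1) → k := ((∑ t, x t • b t : W) :
      Fin (e + 1) → Fin (N + 1) → k) with hy
    have h1 : ∀ l m, (MvPolynomial.aeval (cur y) (F l)).coeff m =
        MvPolynomial.eval x ((MvPolynomial.aeval (cur U) (F l)).coeff m) := by
      intro l m
      have h2 := map_aeval_cur (MvPolynomial.aeval (R := k) x) U (F l) m
      have h3 : (fun j i => MvPolynomial.aeval x (U j i)) = y := by
        funext j i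
        simp only [U, map_sum, map_mul, MvPolynomial.aeval_X, MvPolynomial.aeval_C, hy]
        simp only [Submodule.coe_sum, Submodule.coe_smul, Finset.sum_apply, Pi.smul_apply,
          smul_eq_mul, Algebra.algebraMap_self, RingHom.id_apply]
        exact Finset.sum_congr rfl fun t _ => mul_comm _ _
      rw [h3] at h2
      rw [← h2, MvPolynomial.aeval_eq_eval]
    have hyY : y ∈ Y := by
      intro l
      ext m
      rw [Polynomial.coeff_zero]
      by_cases hm : m < d l * e + 1
      · rw [h1]; exact hx ⟨l, ⟨m, hm⟩⟩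
      · exact Polynomial.coeff_eq_zero_of_natDegree_lt
          (lt_of_le_of_lt (aeval_homogenize y _ (hF l)).1 (by omega))
    have hy0 : y = 0 := hW y hyY (by rw [hy]; exact Submodule.coe_mem _)
    apply hx0
    have h4 : ∑ t, x t • b t = 0 := by
      apply Subtype.ext
      rw [← hy, hy0]
      rfl
    have h5 := Fintype.linearIndependent_iff.1 b.linearIndependent x h4
    exact funext h5
  -- the projection
  set M := e * (N + 1) + (∑ l, (d l * e - 1) - 1) with hM
  have hquot : M + 1 ≤ Module.finrank k ((Fin (e + 1) → Fin (N + 1) → k) ⧸ W) := by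
    have h1 := Submodule.finrank_quotient_add_finrank W
    have h2 : Module.finrank k (Fin (e + 1) → Fin (N + 1) → k) = (e + 1) * (N + 1) := by
      rw [Module.finrank_pi_fintype]
      simp
    rw [h2] at h1
    have h3 : ∑ l, (d l * e + 1) + ∑ l, (d l * e - 1) = 2 * e * ∑ l, d l := by
      rw [← Finset.sum_add_distrib, Finset.mul_sum]
      refine Finset.sum_congr rfl fun l _ => ?_
      have h4 : 4 ≤ d l * e := Nat.mul_le_mul (hd2 l) he2
      have h5 : 2 * e * d l = 2 * (d l * e) := by ring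
      omega
    have h6 : 1 ≤ ∑ l, (d l * e - 1) := by
      have h7 : d ⟨0, hc⟩ * e - 1 ≤ ∑ l, (d l * e - 1) :=
        Finset.single_le_sum (f := fun l => d l * e - 1) (fun _ _ => Nat.zero_le _) (mem_univ _)
      have h4 : 4 ≤ d ⟨0, hc⟩ * e := Nat.mul_le_mul (hd2 _) he2
      omega
    have h8 : (e + 1) * (N + 1) = e * (N + 1) + (N + 1) := by ring
    omega
  obtain ⟨π, hπs, hπW⟩ : ∃ π : (Fin (e + 1) → Fin (N + 1) → k) →ₗ[k] (Fin (M + 1) → k),
      Function.Surjective π ∧ ∀ w ∈ W, π w = 0 := by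
    let b := Module.finBasis k ((Fin (e + 1) → Fin (N + 1) → k) ⧸ W)
    refine ⟨(LinearMap.funLeft k k (Fin.castLE hquot)) ∘ₗ b.equivFun.toLinearMap ∘ₗ W.mkQ,
      ?_, fun w hw => ?_⟩
    · have h1 := LinearMap.funLeft_surjective_of_injective k k (Fin.castLE hquot)
        (Fin.castLE_injective hquot)
      exact h1.comp ((b.equivFun.surjective).comp W.mkQ_surjective)
    · have : W.mkQ w = 0 := by simpa using hw
      simp only [LinearMap.comp_apply, this, map_zero]
  have hsurj : ∀ t : Fin (M + 1) → k, ∃ y ∈ Y, π y = t := by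
    intro t
    obtain ⟨v, rfl⟩ := hπs t
    obtain ⟨y, hy, hyW⟩ := hWY v
    refine ⟨y, hy, ?_⟩
    have := hπW _ hyW
    rw [map_sub, sub_eq_zero] at this
    exact this.symm
  -- the relation
  choose P hP0 hP using fun q : Σ l : Fin c, {t // t ∈ T l} =>
    exists_relation_chart hF hd2 hX q.1 q.2.1.1 q.2.1.2 (hTdeg q.1 _ q.2.2).1 M
      (le_of_eq hM.symm) π
  have hprod : ∏ q, P q = 0 := by
    apply MvPolynomial.funext
    intro t
    obtain ⟨y, hy, rfl⟩ := hsurj t
    obtain ⟨q, lam, hq⟩ := hbad y hy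
    rw [map_prod, map_zero]
    exact Finset.prod_eq_zero (mem_univ q) (hP q y lam hq)
  obtain ⟨q, -, hq⟩ := Finset.prod_eq_zero_iff.1 hprod
  exact hP0 q hq

end Main

end Pool.Agent.Helper41.CI
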